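import Mathlib
import Pool.Graph.R_seed8.Helper766.G.LogFn
import Pool.Graph.R_seed8.Helper766.G.Mean
import Pool.Graph.R_seed8.Helper766.G.Weight

set_option autoImplicit false

open Polynomial Complex

namespace Pool.Agent.KS6_16.KU

open Pool.Agent.Helper766 Pool.Agent.Helper766.G Pool.Agent.Results.MP_6cc408_an.RealAxisSharp

/-- a nearest boundary value off the real axis, for a polynomial univalent on a larger disc -/
structure BadE (N : ℕ) (p : ℝ[X]) (ρ δ s : ℝ) : Prop where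
  cls : InClass N p
  inj : ∃ R : ℝ, 1 < R ∧ Set.InjOn (fun z : ℂ => aeval z p) (Metric.ball (0 : ℂ) R)
  rho_pos : 0 < ρ
  d_pos : 0 < δ
  d_lt : δ < Real.pi
  s_pos : 0 < s
  s_lt : s < Real.pi
  hit : aeval (Complex.exp ((s : ℂ) * Complex.I)) p = (ρ : ℂ) * Complex.exp ((δ : ℂ) * Complex.I)
  min : ∀ z : ℂ, ‖z‖ = 1 → ρ ≤ ‖aeval z p‖

end Pool.Agent.KS6_16.KU
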