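import Mathlib
import Pool.Agent.KS6_16.KU.Gside
import Pool.Agent.KS6_16.KU.Tang
import Pool.Graph.R_seed8.Helper809.Koe.Asm
import Pool.Graph.R_seed8.Helper809.Koe.Wrap

set_option autoImplicit false

open Polynomial Complex

namespace Pool.Agent.KS6_16.KU

open Pool.Agent.Helper766 Pool.Agent.Helper766.G Pool.Agent.Results.MP_6cc408_an.RealAxisSharp
open Pool.Agent.Helper809.Koe (GSide BSide)
open Filter Topology

/-- limits of nearest boundary points of the rescaled polynomials -/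
structure Lim (N : ℕ) (p : ℝ[X]) (z : ℂ) : Prop where
  cls : InClass N p
  nz : ‖z‖ = 1
  seq : ∃ (t : ℕ → ℝ) (ζ : ℕ → ℂ), (∀ n, 0 < t n) ∧ (∀ n, t n < 1) ∧ Tendsto t atTop (𝓝 1) ∧
    (∀ n, ‖ζ n‖ = 1) ∧ Tendsto ζ atTop (𝓝 z) ∧
    ∀ n, ∀ y : ℂ, ‖y‖ = 1 → ‖aeval (ζ n) (scl (t n) p)‖ ≤ ‖aeval y (scl (t n) p)‖

lemma tendsto_scl (p : ℝ[X]) {t : ℕ → ℝ} {ζ : ℕ → ℂ} {z : ℂ} (ht : Tendsto t atTop (𝓝 1))
    (hζ : Tendsto ζ atTop (𝓝 z)) :
    Tendsto (fun n => aeval (ζ n) (scl (t n) p)) atTop (𝓝 (aeval z p)) := by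
  have h1 : Tendsto (fun n => ((t n : ℝ) : ℂ)) atTop (𝓝 1) := by
    have := (continuous_ofReal.tendsto (1 : ℝ)).comp ht
    rw [ofReal_one] at this
    exact this
  have h2 : Tendsto (fun n => ((1 / t n : ℝ) : ℂ)) atTop (𝓝 1) := by
    have := h1.inv₀ one_ne_zero
    simp only [inv_one] at this
    refine this.congr ?_
    intro n
    push_cast
    rw [one_div]
  have h3 : Tendsto (fun n => ((t n : ℝ) : ℂ) * ζ n) atTop (𝓝 z) := by
    have := h1.mul hζ
    rwa [one_mul] at this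
  have h4 : Tendsto (fun n => aeval (((t n : ℝ) : ℂ) * ζ n) p) atTop (𝓝 (aeval z p)) :=
    (p.continuous_aeval.tendsto z).comp h3
  have h5 := h2.mul h4
  rw [one_mul] at h5
  refine h5.congr ?_
  intro n
  rw [scl_aeval]

lemma Lim.min {N : ℕ} {p : ℝ[X]} {z : ℂ} (h : Lim N p z) (y : ℂ) (hy : ‖y‖ = 1) :
    ‖aeval z p‖ ≤ ‖aeval y p‖ := by
  obtain ⟨t, ζ, ht0, ht1, ht, hζ1, hζ, hm⟩ := h.seq
  exact le_of_tendsto_of_tendsto' (tendsto_scl p ht hζ).norm
    (tendsto_scl p ht (tendsto_const_nhds (x := y))).norm (fun n => hm n y hy)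

theorem exists_lim {N : ℕ} {p : ℝ[X]} (hp : InClass N p) : ∃ z : ℂ, Lim N p z := by
  have hcomp : IsCompact (Metric.sphere (0 : ℂ) 1) := isCompact_sphere 0 1
  have hne : (Metric.sphere (0 : ℂ) 1).Nonempty := ⟨1, by simp⟩
  set t : ℕ → ℝ := fun n => 1 - 1 / ((n : ℝ) + 2) with ht
  have ht1 : ∀ n, t n < 1 := by
    intro n
    have : 0 < 1 / ((n : ℝ) + 2) := by positivity
    simp only [ht]
    linarith
  have ht0 : ∀ n, 0 < t n := by
    intro n
    have : 1 / ((n : ℝ) + 2) < 1 := by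
      rw [div_lt_one (by positivity)]
      have : (0 : ℝ) ≤ n := Nat.cast_nonneg n
      linarith
    simp only [ht]
    linarith
  have htt : Tendsto t atTop (𝓝 1) := by
    have h1 : Tendsto (fun n : ℕ => 1 / ((n : ℝ) + 2)) atTop (𝓝 0) := by
      have h2 : Tendsto (fun n : ℕ => (n : ℝ) + 2) atTop atTop :=
        tendsto_atTop_add_const_right _ _ tendsto_natCast_atTop_atTop
      have h3 := h2.inv_tendsto_atTop
      refine h3.congr ?_
      intro n
      simp
    have h3 := (tendsto_const_nhds (x := (1 : ℝ)) (f := atTop (α := ℕ))).sub h1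
    simpa [ht] using h3
  have hex : ∀ n, ∃ x : ℂ, ‖x‖ = 1 ∧
      ∀ y : ℂ, ‖y‖ = 1 → ‖aeval x (scl (t n) p)‖ ≤ ‖aeval y (scl (t n) p)‖ := by
    intro n
    obtain ⟨z0, hz0, hmin⟩ := hcomp.exists_isMinOn hne
      (f := fun z : ℂ => ‖aeval z (scl (t n) p)‖) (by
        exact ((scl (t n) p).continuous_aeval.norm).continuousOn)
    refine ⟨z0, by simpa using hz0, ?_⟩
    intro y hy
    exact hmin (by simpa using hy)
  choose x hx1 hx2 using hex
  obtain ⟨z, hz, φ, hφ, hlim⟩ := hcomp.tendsto_subseq (x := x) (fun n => by simpa using hx1 n)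
  refine ⟨z, hp, by simpa using hz, fun n => t (φ n), fun n => x (φ n), fun n => ht0 _,
    fun n => ht1 _, htt.comp hφ.tendsto_atTop, fun n => hx1 _, hlim, ?_⟩
  intro n y hy
  exact hx2 (φ n) y hy

lemma Lim.conj {N : ℕ} {p : ℝ[X]} {z : ℂ} (h : Lim N p z) : Lim N p (starRingEnd ℂ z) := by
  obtain ⟨t, ζ, ht0, ht1, ht, hζ1, hζ, hm⟩ := h.seq
  refine ⟨h.cls, by simpa using h.nz, t, fun n => starRingEnd ℂ (ζ n), ht0, ht1, ht, ?_, ?_, ?_⟩
  · intro n
    simpa using hζ1 n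
  · exact (continuous_conj.tendsto z).comp hζ
  · intro n y hy
    rw [aeval_conj, Complex.norm_conj]
    exact hm n y hy

lemma refl_aeval (q : ℝ[X]) (z : ℂ) : aeval z (-(q.comp (-X))) = -aeval (-z) q := by
  rw [map_neg, aeval_comp]
  simp

lemma scl_refl_aeval (p : ℝ[X]) (t : ℝ) (z : ℂ) :
    aeval z (scl t (-(p.comp (-X)))) = -aeval (-z) (scl t p) := by
  rw [scl_aeval, scl_aeval, refl_aeval]
  have : -((t : ℂ) * z) = (t : ℂ) * -z := by ring
  rw [this]
  ring

lemma Lim.refl {N : ℕ} {p : ℝ[X]} {z : ℂ} (h : Lim N p z) : Lim N (-(p.comp (-X))) (-z) := by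
  obtain ⟨t, ζ, ht0, ht1, ht, hζ1, hζ, hm⟩ := h.seq
  refine ⟨class_reflect h.cls, by simpa using h.nz, t, fun n => -(ζ n), ht0, ht1, ht, ?_,
    hζ.neg, ?_⟩
  · intro n
    simpa using hζ1 n
  · intro n y hy
    rw [scl_refl_aeval, scl_refl_aeval, norm_neg, norm_neg, neg_neg]
    exact hm n (-y) (by simpa using hy)

lemma exp_arg_of_norm {z : ℂ} (hz : ‖z‖ = 1) : exp ((arg z : ℂ) * I) = z := by
  have := Complex.norm_mul_exp_arg_mul_I z
  rw [hz] at this
  simpa using this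

lemma arg_mem {z : ℂ} (hz : 0 < z.im) : 0 < arg z ∧ arg z < Real.pi := by
  constructor
  · have h1 : 0 ≤ arg z := Complex.arg_nonneg_iff.mpr hz.le
    rcases h1.eq_or_lt with h2 | h2
    · exfalso
      have := (Complex.arg_eq_zero_iff (z := z)).mp h2.symm
      linarith [this.2]
    · exact h2
  · rcases (Complex.arg_le_pi z).eq_or_lt with h2 | h2
    · exfalso
      rw [Complex.arg_eq_pi_iff] at h2
      linarith [h2.2]
    · exact h2

/-- sequences of nearest boundary points off the axis -/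
theorem lim_seq {N : ℕ} {p : ℝ[X]} {z : ℂ} (h : Lim N p z) (him : 0 < (aeval z p).im) :
    ∃ (t : ℕ → ℝ) (ζ : ℕ → ℂ), (∀ n, 0 < t n) ∧ Tendsto t atTop (𝓝 1) ∧ Tendsto ζ atTop (𝓝 z) ∧
      (∀ n, ‖ζ n‖ = 1) ∧ 0 < z.im ∧
      ∀ n, BadE N (scl (t n) p) ‖aeval (ζ n) (scl (t n) p)‖ (arg (aeval (ζ n) (scl (t n) p)))
        (arg (ζ n)) := by
  have hcls := h.cls
  have key : ∀ (q : ℝ[X]), InClass N q → ∀ y : ℂ, ‖y‖ = 1 → 0 < (aeval y q).im → 0 < y.im := by
    intro q hq y hy hyi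
    by_contra hcon
    push Not at hcon
    have := im_circle_nonneg q (deriv_zero hq.2.2.1) hq.2.2.2 (z := starRingEnd ℂ y)
      (by simpa using hy) (by simpa using hcon)
    rw [aeval_conj, Complex.conj_im] at this
    linarith
  have hzi := key p hcls z h.nz him
  obtain ⟨t, ζ, ht0, ht1, ht, hζ1, hζ, hm⟩ := h.seq
  have hw := tendsto_scl p ht hζ
  have hwi : ∀ᶠ n in atTop, 0 < (aeval (ζ n) (scl (t n) p)).im :=
    ((Complex.continuous_im.tendsto _).comp hw).eventually (lt_mem_nhds him)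
  obtain ⟨n0, hn0⟩ := eventually_atTop.mp hwi
  refine ⟨fun n => t (n + n0), fun n => ζ (n + n0), fun n => ht0 _, (tendsto_add_atTop_iff_nat n0).mpr ht,
    (tendsto_add_atTop_iff_nat n0).mpr hζ, fun n => hζ1 _, hzi, ?_⟩
  intro n
  set k := n + n0 with hk
  have h1 : 0 < (aeval (ζ k) (scl (t k) p)).im := hn0 k (by omega)
  have hq : InClass N (scl (t k) p) := scl_inClass hcls (ht0 k) (ht1 k).le
  have h2 : 0 < (ζ k).im := key _ hq _ (hζ1 k) h1
  obtain ⟨a1, a2⟩ := arg_mem h1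
  obtain ⟨b1, b2⟩ := arg_mem h2
  exact {
    cls := hq
    inj := ⟨1 / t k, by rw [lt_div_iff₀ (ht0 k)]; linarith [ht1 k], scl_injOn hcls (ht0 k)⟩
    rho_pos := by
      rw [norm_pos_iff]
      intro h0
      rw [h0] at h1
      simp at h1
    d_pos := a1
    d_lt := a2
    s_pos := b1
    s_lt := b2
    hit := by
      rw [exp_arg_of_norm (hζ1 k), Complex.norm_mul_exp_arg_mul_I]
    min := by
      intro y hy
      exact hm k y hy }

lemma scl_coeff_two (p : ℝ[X]) {t : ℝ} (ht : 0 < t) : (scl t p).coeff 2 = t * p.coeff 2 := by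
  unfold scl
  rw [coeff_C_mul, comp_C_mul_X_coeff]
  field_simp

lemma scl_deriv_aeval (p : ℝ[X]) {t : ℝ} (ht : 0 < t) (z : ℂ) :
    aeval z (derivative (scl t p)) = aeval ((t : ℂ) * z) (derivative p) := by
  unfold scl
  rw [derivative_C_mul, derivative_comp, map_mul, map_mul, aeval_comp]
  have htc : (t : ℂ) ≠ 0 := by exact_mod_cast ht.ne'
  simp
  field_simp

/-- the `G` side at a limit point -/
theorem lim_gside {N : ℕ} {p : ℝ[X]} {z : ℂ} (h : Lim N p z) (him : 0 < (aeval z p).im) :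
    GSide (p.coeff 2) ‖aeval z p‖ (arg (aeval z p)) (arg z) := by
  obtain ⟨t, ζ, ht0, ht, hζ, hζ1, hzi, hb⟩ := lim_seq h him
  have hpi := Real.pi_pos
  set w := aeval z p with hw
  have hwt := tendsto_scl p ht hζ
  rw [← hw] at hwt
  have hρ : Tendsto (fun n => ‖aeval (ζ n) (scl (t n) p)‖) atTop (𝓝 ‖w‖) := hwt.norm
  have hδ : Tendsto (fun n => arg (aeval (ζ n) (scl (t n) p))) atTop (𝓝 (arg w)) :=
    ((continuousAt_arg (mem_slitPlane_iff.mpr (Or.inr him.ne'))).tendsto).comp hwt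
  have hs : Tendsto (fun n => arg (ζ n)) atTop (𝓝 (arg z)) :=
    ((continuousAt_arg (mem_slitPlane_iff.mpr (Or.inr hzi.ne'))).tendsto).comp hζ
  have hb2 : Tendsto (fun n => (scl (t n) p).coeff 2) atTop (𝓝 (p.coeff 2)) := by
    have h1 := ht.mul_const (p.coeff 2)
    rw [one_mul] at h1
    refine h1.congr ?_
    intro n
    rw [scl_coeff_two p (ht0 n)]
  have hρ0 : 0 < ‖w‖ := by
    rw [norm_pos_iff]
    intro h0
    rw [h0] at him
    simp at him
  obtain ⟨a1, a2⟩ := arg_mem him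
  obtain ⟨c1, c2⟩ := arg_mem hzi
  have hsd : 0 < Real.sin (arg w) := Real.sin_pos_of_pos_of_lt_pi a1 a2
  -- passage to the limit for fixed parameters
  have key : ∀ B t1 ta : ℝ, 0 < B → B ≤ 2 → 0 ≤ t1 → t1 ≤ ta → ta ≤ Real.pi →
      (∀ᶠ n in atTop, ta = t1 ∨ B / 2 * (1 - Real.cos ta) ≤ 1 - Real.cos (arg (ζ n))) →
      B / 2 + B / 2 * (1 - Real.cos t1) + ‖w‖ / Real.sin (arg w) *
      (Wf B (B / 2 * (1 - Real.cos t1)) t1 + 2 * Wf B (B / 2 * (1 - Real.cos t1)) ta -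
        (1 + arg w / Real.pi) * Wf B (B / 2 * (1 - Real.cos t1)) Real.pi) ≤
      (2 - p.coeff 2 - Real.cos (arg w) / ‖w‖) / 2 := by
    intro B t1 ta hB hB2 h1 h1a haπ hev
    have hL : Tendsto (fun n => B / 2 + B / 2 * (1 - Real.cos t1) +
        ‖aeval (ζ n) (scl (t n) p)‖ / Real.sin (arg (aeval (ζ n) (scl (t n) p))) *
        (Wf B (B / 2 * (1 - Real.cos t1)) t1 + 2 * Wf B (B / 2 * (1 - Real.cos t1)) ta -
        (1 + arg (aeval (ζ n) (scl (t n) p)) / Real.pi) *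
          Wf B (B / 2 * (1 - Real.cos t1)) Real.pi)) atTop
        (𝓝 (B / 2 + B / 2 * (1 - Real.cos t1) + ‖w‖ / Real.sin (arg w) *
      (Wf B (B / 2 * (1 - Real.cos t1)) t1 + 2 * Wf B (B / 2 * (1 - Real.cos t1)) ta -
        (1 + arg w / Real.pi) * Wf B (B / 2 * (1 - Real.cos t1)) Real.pi))) := by
      apply Tendsto.const_add
      apply Tendsto.mul
      · exact hρ.div ((Real.continuous_sin.tendsto _).comp hδ) hsd.ne'
      · apply Tendsto.const_sub
        apply Tendsto.mul_const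
        exact (hδ.div_const _).const_add _
    have hR : Tendsto (fun n => (2 - (scl (t n) p).coeff 2 -
        Real.cos (arg (aeval (ζ n) (scl (t n) p))) / ‖aeval (ζ n) (scl (t n) p)‖) / 2) atTop
        (𝓝 ((2 - p.coeff 2 - Real.cos (arg w) / ‖w‖) / 2)) := by
      apply Tendsto.div_const
      apply Tendsto.sub
      · exact hb2.const_sub _
      · exact ((Real.continuous_cos.tendsto _).comp hδ).div hρ hρ0.ne'
    apply le_of_tendsto_of_tendsto hL hR
    filter_upwards [hev] with n hn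
    exact gside (hb n) hB hB2 h1 h1a haπ hn
  intro B t1 ta hB hB2 h1 h1a haπ hor
  have goal : B / 2 + B / 2 * (1 - Real.cos t1) + ‖w‖ / Real.sin (arg w) *
      (Wf B (B / 2 * (1 - Real.cos t1)) t1 + 2 * Wf B (B / 2 * (1 - Real.cos t1)) ta -
        (1 + arg w / Real.pi) * Wf B (B / 2 * (1 - Real.cos t1)) Real.pi) ≤
      (2 - p.coeff 2 - Real.cos (arg w) / ‖w‖) / 2 := by
    rcases hor with hor | hor
    · exact key B t1 ta hB hB2 h1 h1a haπ (Eventually.of_forall fun n => Or.inl hor)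
    · -- approximate `B` from below
      have hcs : 0 < 1 - Real.cos (arg z) := by
        have := Real.cos_lt_cos_of_nonneg_of_le_pi le_rfl c2.le c1
        rw [Real.cos_zero] at this
        linarith
      have hcont : Tendsto (fun B : ℝ => B / 2 + B / 2 * (1 - Real.cos t1) + ‖w‖ / Real.sin (arg w) *
          (Wf B (B / 2 * (1 - Real.cos t1)) t1 + 2 * Wf B (B / 2 * (1 - Real.cos t1)) ta -
          (1 + arg w / Real.pi) * Wf B (B / 2 * (1 - Real.cos t1)) Real.pi)) (𝓝[<] B)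
          (𝓝 (B / 2 + B / 2 * (1 - Real.cos t1) + ‖w‖ / Real.sin (arg w) *
          (Wf B (B / 2 * (1 - Real.cos t1)) t1 + 2 * Wf B (B / 2 * (1 - Real.cos t1)) ta -
          (1 + arg w / Real.pi) * Wf B (B / 2 * (1 - Real.cos t1)) Real.pi))) := by
        have hc : Continuous (fun B : ℝ => B / 2 + B / 2 * (1 - Real.cos t1) +
          ‖w‖ / Real.sin (arg w) *
          (Wf B (B / 2 * (1 - Real.cos t1)) t1 + 2 * Wf B (B / 2 * (1 - Real.cos t1)) ta -
          (1 + arg w / Real.pi) * Wf B (B / 2 * (1 - Real.cos t1)) Real.pi)) := by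
          unfold Wf
          fun_prop
        exact (hc.tendsto B).mono_left nhdsWithin_le_nhds
      apply le_of_tendsto hcont
      have hI : Set.Ioo (0 : ℝ) B ∈ 𝓝[<] B := Ioo_mem_nhdsLT hB
      filter_upwards [hI] with B' hB'
      apply key B' t1 ta hB'.1 (by linarith [hB'.2]) h1 h1a haπ
      have hlt : B' / 2 * (1 - Real.cos ta) < 1 - Real.cos (arg z) := by
        rcases (show 0 ≤ 1 - Real.cos ta by linarith [Real.cos_le_one ta]).eq_or_lt with h0 | h0
        · rw [← h0, mul_zero]; exact hcs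
        · have : B' / 2 * (1 - Real.cos ta) < B / 2 * (1 - Real.cos ta) := by
            apply mul_lt_mul_of_pos_right _ h0
            linarith [hB'.2]
          linarith
      have hev : ∀ᶠ n in atTop, B' / 2 * (1 - Real.cos ta) < 1 - Real.cos (arg (ζ n)) := by
        have : Tendsto (fun n => 1 - Real.cos (arg (ζ n))) atTop (𝓝 (1 - Real.cos (arg z))) :=
          ((Real.continuous_cos.tendsto _).comp hs).const_sub _
        exact this.eventually (lt_mem_nhds hlt)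
      filter_upwards [hev] with n hn
      exact Or.inr hn.le
  unfold Pool.Agent.Helper766.G.Wf at goal
  unfold Pool.Agent.Helper809.Koe.Wf
  exact goal

/-- the circle and the disc have disjoint images -/
lemma circle_not_mem {N : ℕ} {p : ℝ[X]} (hp : InClass N p) {z : ℂ} (hz : ‖z‖ = 1) :
    aeval z p ∉ (fun z : ℂ => aeval z p) '' Metric.ball (0 : ℂ) 1 := by
  rintro ⟨x, hx, hxz⟩
  simp only at hxz
  rw [mem_ball_zero_iff] at hx
  have han : AnalyticOnNhd ℂ (fun z : ℂ => aeval z p) (Metric.ball (0 : ℂ) 1) :=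
    (p.differentiable_aeval.differentiableOn).analyticOnNhd Metric.isOpen_ball
  have hopen : ∀ s ⊆ Metric.ball (0 : ℂ) 1, IsOpen s → IsOpen ((fun z : ℂ => aeval z p) '' s) := by
    rcases han.is_constant_or_isOpen (convex_ball (0 : ℂ) 1).isPreconnected with ⟨w, hw⟩ | h
    · exfalso
      have h0 : (0 : ℂ) ∈ Metric.ball (0 : ℂ) 1 := by simp
      have h1 : (1 / 2 : ℂ) ∈ Metric.ball (0 : ℂ) 1 := by
        rw [mem_ball_zero_iff]; norm_num
      have := hp.2.2.2 h0 h1 (by simp only; rw [hw 0 h0, hw _ h1])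
      norm_num at this
    · exact h
  have hxz' : x ≠ z := by
    intro h
    rw [h, hz] at hx
    exact lt_irrefl _ hx
  obtain ⟨r, hr, hr2⟩ : ∃ r : ℝ, ‖x‖ < r ∧ r < 1 := exists_between hx
  set U : Set ℂ := Metric.ball (0 : ℂ) r with hU
  have hU1 : U ⊆ Metric.ball (0 : ℂ) 1 := Metric.ball_subset_ball hr2.le
  have hUo := hopen U hU1 Metric.isOpen_ball
  have hmem : aeval z p ∈ (fun z : ℂ => aeval z p) '' U := ⟨x, by rw [hU, mem_ball_zero_iff]; exact hr, hxz⟩
  have hnb : ∀ᶠ y in 𝓝 z, aeval y p ∈ (fun z : ℂ => aeval z p) '' U :=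
    (p.continuous_aeval.tendsto z).eventually (hUo.mem_nhds hmem)
  have ht : Tendsto (fun a : ℝ => (a : ℂ) * z) (𝓝[<] 1) (𝓝 z) := by
    have h1 : Continuous (fun a : ℝ => (a : ℂ) * z) := by fun_prop
    have h2 := (h1.tendsto 1).mono_left (nhdsWithin_le_nhds (s := Set.Iio 1))
    simpa using h2
  have hr0 : 0 ≤ r := (norm_nonneg x).trans hr.le
  have hI : Set.Ioo r 1 ∈ 𝓝[<] (1 : ℝ) := Ioo_mem_nhdsLT hr2
  obtain ⟨a, ha1, ha2⟩ := ((ht.eventually hnb).and hI).exists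
  obtain ⟨y, hy, hyz⟩ := ha1
  have hn : ‖(a : ℂ) * z‖ = a := by
    rw [norm_mul, hz, mul_one, Complex.norm_real, Real.norm_eq_abs, abs_of_nonneg (by linarith [ha2.1])]
  have := hp.2.2.2 (x₁ := y) (x₂ := (a : ℂ) * z) (hU1 hy) (by rw [mem_ball_zero_iff, hn]; exact ha2.2) hyz
  rw [this, hU, mem_ball_zero_iff, hn] at hy
  linarith [ha2.1]

/-- tangency at a limit point -/
theorem lim_tangency {N : ℕ} {p : ℝ[X]} {z : ℂ} (h : Lim N p z) (him : 0 < (aeval z p).im) :
    ∃ κ : ℝ, 0 ≤ κ ∧ κ ≤ 1 ∧ z * aeval z (derivative p) = (κ : ℂ) * aeval z p := by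
  obtain ⟨t, ζ, ht0, ht, hζ, hζ1, hzi, hb⟩ := lim_seq h him
  have hwt := tendsto_scl p ht hζ
  have hwne : aeval z p ≠ 0 := by
    intro h0
    rw [h0] at him
    simp at him
  have htc : Tendsto (fun n => ((t n : ℝ) : ℂ) * ζ n) atTop (𝓝 z) := by
    have h1 : Tendsto (fun n => ((t n : ℝ) : ℂ)) atTop (𝓝 1) := by
      have := (continuous_ofReal.tendsto (1 : ℝ)).comp ht
      rw [ofReal_one] at this
      exact this
    have := h1.mul hζ
    rwa [one_mul] at this
  have hd : Tendsto (fun n => aeval (((t n : ℝ) : ℂ) * ζ n) (derivative p)) atTop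
      (𝓝 (aeval z (derivative p))) := ((derivative p).continuous_aeval.tendsto z).comp htc
  have hq : Tendsto (fun n => ζ n * aeval (((t n : ℝ) : ℂ) * ζ n) (derivative p) /
      aeval (ζ n) (scl (t n) p)) atTop (𝓝 (z * aeval z (derivative p) / aeval z p)) :=
    (hζ.mul hd).div hwt hwne
  have hκ : ∀ n, ∃ κ : ℝ, 0 ≤ κ ∧ κ ≤ 1 ∧ ζ n * aeval (((t n : ℝ) : ℂ) * ζ n) (derivative p) /
      aeval (ζ n) (scl (t n) p) = (κ : ℂ) := by
    intro n
    obtain ⟨κ, h0, h1, h2⟩ := tangency (hb n)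
    refine ⟨κ, h0, h1, ?_⟩
    rw [exp_arg_of_norm (hζ1 n), Complex.norm_mul_exp_arg_mul_I, scl_deriv_aeval p (ht0 n)] at h2
    rw [h2]
    have : aeval (ζ n) (scl (t n) p) ≠ 0 := by
      have := (hb n).rho_pos
      rwa [norm_pos_iff] at this
    field_simp
  set K := z * aeval z (derivative p) / aeval z p with hK
  have hKi : K.im = 0 := by
    have h1 := (Complex.continuous_im.tendsto K).comp hq
    have h2 : ∀ n, (Complex.im ∘ fun n => ζ n * aeval (((t n : ℝ) : ℂ) * ζ n) (derivative p) /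
      aeval (ζ n) (scl (t n) p)) n = 0 := by
      intro n
      obtain ⟨κ, _, _, h2⟩ := hκ n
      simp only [Function.comp_apply]
      rw [h2, ofReal_im]
    have h3 : Tendsto (fun _ : ℕ => (0 : ℝ)) atTop (𝓝 K.im) := h1.congr h2
    exact (tendsto_nhds_unique h3 tendsto_const_nhds)
  have hKr : K.re ∈ Set.Icc (0 : ℝ) 1 := by
    have h1 := (Complex.continuous_re.tendsto K).comp hq
    apply isClosed_Icc.mem_of_tendsto h1
    apply Eventually.of_forall
    intro n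
    obtain ⟨κ, h0, h1, h2⟩ := hκ n
    simp only [Function.comp_apply]
    rw [h2, ofReal_re]
    exact ⟨h0, h1⟩
  refine ⟨K.re, hKr.1, hKr.2, ?_⟩
  have : ((K.re : ℝ) : ℂ) = K := by
    apply Complex.ext <;> simp [hKi]
  rw [this, hK]
  field_simp

end Pool.Agent.KS6_16.KU
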