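import Mathlib
import Pool.Agent.KS6_16.KU.Lim
import Pool.Graph.R_seed8.Helper499.N5Mid

set_option autoImplicit false

open Polynomial

namespace Pool.Agent.KS6_16.KU

open Pool.Agent.Helper766 Pool.Agent.Helper766.G Pool.Agent.Results.MP_6cc408_an.RealAxisSharp
open Pool.Agent.Helper809.Koe (GSide BSide)

/-- an extremal polynomial whose nearest boundary value is off the real axis (to be excluded) -/
structure Ext (N : ℕ) (p : ℝ[X]) (ρ δ s : ℝ) : Prop where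
  cls : InClass N p
  rho_pos : 0 < ρ
  rho_eq : ρ = VN N
  d_pos : 0 < δ
  d_le : δ ≤ Real.pi / 2
  s_pos : 0 < s
  s_lt : s < Real.pi
  hit : aeval (Complex.exp ((s : ℂ) * Complex.I)) p = (ρ : ℂ) * Complex.exp ((δ : ℂ) * Complex.I)
  min : ∀ z : ℂ, ‖z‖ = 1 → ρ ≤ ‖aeval z p‖
  gs : GSide (p.coeff 2) ρ δ s
  tan : ∃ κ : ℝ, 0 ≤ κ ∧ κ ≤ 1 ∧
    Complex.exp ((s : ℂ) * Complex.I) * aeval (Complex.exp ((s : ℂ) * Complex.I)) (derivative p) =
      (κ : ℂ) * ((ρ : ℂ) * Complex.exp ((δ : ℂ) * Complex.I))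

lemma ext_of_lim {N : ℕ} {p : ℝ[X]} {z : ℂ} (h : Lim N p z) (him : 0 < (aeval z p).im)
    (hre : 0 ≤ (aeval z p).re) (hV : ‖aeval z p‖ = VN N) :
    Ext N p ‖aeval z p‖ (Complex.arg (aeval z p)) (Complex.arg z) := by
  obtain ⟨t, ζ, ht0, ht, hζ, hζ1, hzi, hb⟩ := lim_seq h him
  obtain ⟨a1, a2⟩ := arg_mem him
  obtain ⟨b1, b2⟩ := arg_mem hzi
  exact {
    cls := h.cls
    rho_pos := by
      rw [norm_pos_iff]
      intro h0
      rw [h0] at him
      simp at him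
    rho_eq := hV
    d_pos := a1
    d_le := (le_abs_self _).trans (Complex.abs_arg_le_pi_div_two_iff.mpr hre)
    s_pos := b1
    s_lt := b2
    hit := by rw [exp_arg_of_norm h.nz, Complex.norm_mul_exp_arg_mul_I]
    min := fun y hy => h.min y hy
    gs := lim_gside h him
    tan := by
      rw [exp_arg_of_norm h.nz, Complex.norm_mul_exp_arg_mul_I]
      exact lim_tangency h him }

/-- Bieberbach's inequality -/
theorem ext_bside {N : ℕ} {p : ℝ[X]} {ρ δ s : ℝ} (hb : Ext N p ρ δ s) :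
    BSide (p.coeff 2) ρ δ := by
  have hom : (ρ : ℂ) * Complex.exp ((δ : ℂ) * Complex.I) ∉
      (fun z : ℂ => aeval z p) '' Metric.ball (0 : ℂ) 1 := by
    rw [← hb.hit]
    exact circle_not_mem hb.cls (Complex.norm_exp_ofReal_mul_I s)
  have h := Pool.Agent.Helper499.bieb hb.cls.2.1 hb.cls.2.2.1 hb.cls.2.2.2 hom
  have hρ := hb.rho_pos
  have e : ((p.coeff 2 : ℝ) : ℂ) + 1 / ((ρ : ℂ) * Complex.exp ((δ : ℂ) * Complex.I)) =
      ((p.coeff 2 + Real.cos δ / ρ : ℝ) : ℂ) + ((-(Real.sin δ / ρ) : ℝ) : ℂ) * Complex.I := by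
    have e1 : 1 / ((ρ : ℂ) * Complex.exp ((δ : ℂ) * Complex.I)) =
        ((1 / ρ : ℝ) : ℂ) * Complex.exp (((-δ : ℝ) : ℂ) * Complex.I) := by
      have : Complex.exp (((-δ : ℝ) : ℂ) * Complex.I) =
          (Complex.exp ((δ : ℂ) * Complex.I))⁻¹ := by
        rw [← Complex.exp_neg]; congr 1; push_cast; ring
      rw [this]
      push_cast
      rw [one_div, one_div, mul_inv]
    have e2 : Complex.exp (((-δ : ℝ) : ℂ) * Complex.I) =
        ((Real.cos δ : ℝ) : ℂ) - ((Real.sin δ : ℝ) : ℂ) * Complex.I := by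
      rw [Complex.exp_mul_I]
      push_cast
      rw [Complex.cos_neg, Complex.sin_neg]
      ring
    rw [e1, e2]
    push_cast
    ring
  rw [e] at h
  have h2 : ‖((p.coeff 2 + Real.cos δ / ρ : ℝ) : ℂ) + ((-(Real.sin δ / ρ) : ℝ) : ℂ) * Complex.I‖ ^ 2
      = (p.coeff 2 + Real.cos δ / ρ) ^ 2 + (Real.sin δ / ρ) ^ 2 := by
    rw [← Complex.normSq_eq_norm_sq, Complex.normSq_add_mul_I]
    ring
  unfold BSide
  rw [← h2]
  have h3 := norm_nonneg (((p.coeff 2 + Real.cos δ / ρ : ℝ) : ℂ) +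
    ((-(Real.sin δ / ρ) : ℝ) : ℂ) * Complex.I)
  nlinarith

end Pool.Agent.KS6_16.KU
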