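import Mathlib
import Pool.Agent.KS6_16.KU.SLow
import Pool.Graph.R_seed8.Helper809.Koe.Asm

set_option autoImplicit false

open Polynomial Finset

namespace Pool.Agent.KS6_16.KU

open Pool.Agent.Helper809.Koe

lemma cos_ge {b ρ δ r0 m0 : ℝ} (hρ0 : 0 < ρ) (hr : ρ * r0 ≤ 1) (hr0 : 3 ≤ r0) (hm : m0 ≤ 1 / 8)
    (hm0 : 0 ≤ m0) (hb : 2 - b ≤ r0 + 2 * m0) (hδ0 : 0 < δ) (hδ : δ ≤ Real.pi / 2)
    (hBi : (b + Real.cos δ / ρ) ^ 2 + (Real.sin δ / ρ) ^ 2 ≤ 4) : 8253 / 10000 < Real.cos δ := by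
  by_contra hcon
  push Not at hcon
  have hc0 : 0 ≤ Real.cos δ := Real.cos_nonneg_of_mem_Icc ⟨by linarith [Real.pi_pos], hδ⟩
  have hsc := Real.sin_sq_add_cos_sq δ
  set c := Real.cos δ with hc
  set r := 1 / ρ with hr'
  have hrr : r0 ≤ r := by
    rw [hr', le_div_iff₀ hρ0]; linarith
  have e1 : c / ρ = c * r := by rw [hr']; ring
  have e2 : Real.sin δ / ρ = Real.sin δ * r := by rw [hr']; ring
  rw [e1, e2] at hBi
  have h1 : (b + c * r) ^ 2 + (1 - c ^ 2) * r ^ 2 ≤ 4 := by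
    have : (Real.sin δ * r) ^ 2 = (1 - c ^ 2) * r ^ 2 := by
      rw [mul_pow]; congr 1; linarith
    rw [← this]; exact hBi
  set β := r0 - 2 + 2 * m0 with hβ
  have hb' : -β ≤ b := by rw [hβ]; linarith
  rcases le_or_gt β (c * r) with h2 | h2
  · have h3 : (c * r - β) ^ 2 ≤ (b + c * r) ^ 2 := by
      apply pow_le_pow_left₀ (by linarith)
      linarith
    have h4 : (r - r0) * (r + r0 - 2 * c * β) ≥ 0 := by
      apply mul_nonneg (by linarith)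
      have : c * β ≤ 1 * β := mul_le_mul_of_nonneg_right (by linarith) (by rw [hβ]; linarith)
      have : β ≤ r0 := by rw [hβ]; linarith
      linarith
    have h5 : r0 ^ 2 - 2 * r0 * c * β + β ^ 2 ≤ 4 := by nlinarith
    have h6 : 2 * r0 * c * β ≤ 2 * r0 * (8253 / 10000) * β := by
      have : 0 ≤ β := by rw [hβ]; linarith
      have : 0 ≤ r0 * β := by positivity
      nlinarith
    have h7 : (r0 - β) ^ 2 + 2 * r0 * β * (1747 / 10000) ≤ 4 := by nlinarith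
    have h8 : r0 - β = 2 - 2 * m0 := by rw [hβ]; ring
    have h9 : 1 + 2 * m0 ≤ β := by rw [hβ]; linarith
    have h10 : 3 * (1 + 2 * m0) ≤ r0 * β := by
      apply mul_le_mul hr0 h9 (by linarith) (by linarith)
    rw [h8] at h7
    nlinarith
  · have hcr : 0 ≤ c * r := mul_nonneg hc0 (by linarith)
    have h3 : (c * r) ^ 2 ≤ β ^ 2 := pow_le_pow_left₀ hcr h2.le 2
    have h4 : r0 ^ 2 ≤ r ^ 2 := pow_le_pow_left₀ (by linarith) hrr 2
    have h5 : r0 ^ 2 - β ^ 2 ≤ 4 := by nlinarith [sq_nonneg (b + c * r)]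
    have h6 : r0 - β = 2 - 2 * m0 := by rw [hβ]; ring
    have h7 : (r0 - β) * (r0 + β) ≤ 4 := by nlinarith
    rw [h6] at h7
    have h8 : 4 ≤ r0 + β := by rw [hβ]; linarith
    nlinarith

/-- first consequences: `sin δ ≤ .565` and the `K` inequality. -/
lemma start {b ρ δ s r0 m0 : ℝ} (hG : GSide b ρ δ s) (hρ0 : 0 < ρ) (hr : ρ * r0 ≤ 1)
    (hr0 : 3 ≤ r0) (hm : m0 ≤ 1 / 8) (hm0 : 0 ≤ m0) (hb : 2 - b ≤ r0 + 2 * m0) (hδ0 : 0 < δ)
    (hδ : δ ≤ Real.pi / 2) (hBi : (b + Real.cos δ / ρ) ^ 2 + (Real.sin δ / ρ) ^ 2 ≤ 4) :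
    Real.sin δ ≤ 565 / 1000 ∧ 577 / 1000 * Real.sin δ - (1 - Real.cos δ) < 2 * m0 / r0 := by
  have hc := cos_ge hρ0 hr hr0 hm hm0 hb hδ0 hδ hBi
  have hsc := Real.sin_sq_add_cos_sq δ
  have hσ : 0 < Real.sin δ := Real.sin_pos_of_pos_of_lt_pi hδ0 (by linarith [Real.pi_pos])
  have hle : Real.sin δ / ρ ≤ 2 := by
    have h1 : (Real.sin δ / ρ) ^ 2 ≤ 2 ^ 2 := by
      nlinarith [sq_nonneg (b + Real.cos δ / ρ)]
    exact le_of_sq_le_sq h1 (by norm_num)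
  constructor
  · have h1 : Real.sin δ ^ 2 ≤ (565 / 1000) ^ 2 := by nlinarith
    exact le_of_sq_le_sq h1 (by norm_num)
  · have h1 := g1 hG hρ0 hσ hle
    have h2 : (2 - b) * ρ ≤ (r0 + 2 * m0) * ρ := mul_le_mul_of_nonneg_right hb hρ0.le
    have hr0' : 0 < r0 := by linarith
    have h3 : (r0 + 2 * m0) * ρ ≤ 1 + 2 * m0 / r0 := by
      have : (r0 + 2 * m0) * ρ = (ρ * r0) * (1 + 2 * m0 / r0) := by field_simp
      rw [this]
      have h4 : 0 < 1 + 2 * m0 / r0 := by positivity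
      nlinarith
    have h5 : (577 / 1000 : ℝ) < Real.sqrt 3 / 3 := by
      have : (1732 / 1000 : ℝ) ≤ Real.sqrt 3 := Real.le_sqrt_of_sq_le (by norm_num)
      linarith
    have h6 := mul_lt_mul_of_pos_right h5 hσ
    nlinarith

lemma fin {b ρ δ s r0 m0 a E κ : ℝ} (hG : GSide b ρ δ s) (hρ0 : 0 < ρ) (hr : ρ * r0 ≤ 1)
    (hr0 : 3 ≤ r0) (hb : 2 - b ≤ r0 + 2 * m0) (hδ0 : 0 < δ)
    (hδ : δ ≤ Real.pi / 2) (hE : 1 - Real.cos δ ≤ E) (hE1 : E < 1) (ha0 : 0 < a) (ha1 : a ≤ 1)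
    (ha : a ≤ 1 - Real.cos s) (hκ : 1 ≤ κ * (2 * r0 * (1 - E)))
    (hnum : m0 + r0 / 2 * E < a - κ * a ^ 2) : False := by
  have hσ : 0 < Real.sin δ := Real.sin_pos_of_pos_of_lt_pi hδ0 (by linarith [Real.pi_pos])
  have hc : 0 < Real.cos δ := by linarith
  have hδ' : δ < Real.pi / 2 := by
    rcases hδ.lt_or_eq with h | h
    · exact h
    · rw [h, Real.cos_pi_div_two] at hc; exact absurd hc (lt_irrefl 0)
  have h := g2 hG ha0 ha1 ha
  have h1 : δ * Real.cos δ ≤ Real.sin δ := mul_cos_le_sin hδ0.le hδ'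
  have h2 : δ * ρ / (2 * Real.sin δ) ≤ κ := by
    rw [div_le_iff₀ (by positivity)]
    have h3 : δ * (1 - E) ≤ Real.sin δ := by
      have : δ * (1 - E) ≤ δ * Real.cos δ := mul_le_mul_of_nonneg_left (by linarith) hδ0.le
      linarith
    have hE2 : 0 < 1 - E := by linarith
    have hκ0 : 0 < κ := by
      by_contra h
      push Not at h
      have : 0 < 2 * r0 * (1 - E) := by positivity
      nlinarith
    -- δ ρ ≤ κ · 2 σ : δ ρ · (r0 (1-E)) ≤ σ ≤ κ 2 σ r0 (1-E)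
    have h4 : (δ * ρ) * (r0 * (1 - E)) ≤ (κ * (2 * Real.sin δ)) * (r0 * (1 - E)) := by
      calc (δ * ρ) * (r0 * (1 - E)) = (ρ * r0) * (δ * (1 - E)) := by ring
        _ ≤ 1 * (δ * (1 - E)) := by
            apply mul_le_mul_of_nonneg_right hr (by positivity)
        _ ≤ Real.sin δ := by linarith
        _ = 1 * Real.sin δ := by ring
        _ ≤ (κ * (2 * r0 * (1 - E))) * Real.sin δ := mul_le_mul_of_nonneg_right hκ hσ.le
        _ = _ := by ring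
    exact le_of_mul_le_mul_right h4 (by positivity)
  have h3 : δ * ρ / (2 * Real.sin δ) * a ^ 2 ≤ κ * a ^ 2 :=
    mul_le_mul_of_nonneg_right h2 (sq_nonneg a)
  have h4 : r0 * Real.cos δ ≤ Real.cos δ / ρ := by
    rw [le_div_iff₀ hρ0]
    nlinarith
  have h5 : r0 / 2 * (1 - Real.cos δ) ≤ r0 / 2 * E := mul_le_mul_of_nonneg_left hE (by linarith)
  linarith

end Pool.Agent.KS6_16.KU
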