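import Mathlib
import Pool.Graph.R_seed8.Helper809.Koe.Small
import Pool.Graph.R_seed8.Helper809.Koe.SLow

set_option autoImplicit false

open Polynomial Finset

namespace Pool.Agent.KS6_16.KU

open Pool.Agent.Helper766 Pool.Agent.Helper766.G Pool.Agent.Results.MP_6cc408_an.RealAxisSharp

/-- sum formulas at the nodes -/
lemma sum_value {N : ℕ} (p : ℝ[X]) (hdeg : p.natDegree ≤ N) (h0 : p.coeff 0 = 0) :
    ∑ k ∈ range (N + 2), (qpoly p N).eval (nd (N + 2) k) * (1 - nd (N + 2) k) =
      ((N + 2 : ℕ) : ℝ) * (-(p.eval (-1))) := by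
  rcases Nat.eq_zero_or_pos N with hN | hN
  · subst hN
    have hp : p = 0 := by
      rw [eq_C_of_natDegree_le_zero hdeg, h0, C_0]
    subst hp
    simp [qpoly]
  set M := N + 2 with hM
  unfold qpoly
  simp only [eval_finsetSum, eval_C_mul, sum_mul]
  rw [sum_comm]
  have e1 : ∀ j ∈ range N, ∑ k ∈ range M,
      p.coeff (j + 1) * (Chebyshev.U ℝ (j : ℤ)).eval (nd M k) * (1 - nd M k) =
      p.coeff (j + 1) * ((-1) ^ j * M) := by
    intro j hj
    rw [mem_range] at hj
    rw [← sum_U_nodes (M := M) (by omega) j (by omega), mul_sum]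
    apply sum_congr rfl
    intro k _
    ring
  rw [sum_congr rfl e1]
  have e2 : p.eval (-1) = ∑ j ∈ range N, p.coeff (j + 1) * (-1) ^ (j + 1) := by
    conv_lhs => rw [poly_sum p hdeg h0]
    rw [eval_finsetSum]
    apply sum_congr rfl
    intro j _
    simp
  rw [e2, ← sum_neg_distrib, mul_sum]
  apply sum_congr rfl
  intro j _
  ring

lemma sum_norm {N : ℕ} (hN : 1 ≤ N) (p : ℝ[X]) (h1 : p.coeff 1 = 1) :
    ∑ k ∈ range (N + 2), (qpoly p N).eval (nd (N + 2) k) * (1 - nd (N + 2) k ^ 2) =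
      ((N + 2 : ℕ) : ℝ) / 2 := by
  set M := N + 2 with hM
  unfold qpoly
  simp only [eval_finsetSum, eval_C_mul, sum_mul]
  rw [sum_comm]
  have e1 : ∀ j ∈ range N, ∑ k ∈ range M,
      p.coeff (j + 1) * (Chebyshev.U ℝ (j : ℤ)).eval (nd M k) * (1 - nd M k ^ 2) =
      p.coeff (j + 1) * (if j = 0 then (M : ℝ) / 2 else 0) := by
    intro j hj
    rw [mem_range] at hj
    rw [← sum_U_sq_nodes (M := M) j (by omega), mul_sum]
    apply sum_congr rfl
    intro k _
    ring
  rw [sum_congr rfl e1]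
  rw [sum_eq_single 0]
  · simp [h1]
  · intro j _ hj
    simp [hj]
  · intro h
    simp at h
    omega

lemma nd_lt {M k : ℕ} (hk : 1 < k) (hkM : k + 1 < M) : nd M k < Real.cos (2 * Real.pi / M) := by
  have hM : (0 : ℝ) < M := by exact_mod_cast (by omega : 0 < M)
  unfold nd
  have hk' : (1 : ℝ) < k := by exact_mod_cast hk
  have hkM' : (k : ℝ) + 1 < M := by exact_mod_cast hkM
  have hpi := Real.pi_pos
  rcases le_or_gt (2 * Real.pi * k / M) Real.pi with h | h
  · apply Real.cos_lt_cos_of_nonneg_of_le_pi (by positivity) h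
    apply div_lt_div_of_pos_right _ hM
    nlinarith
  · have e : Real.cos (2 * Real.pi * k / M) = Real.cos (2 * Real.pi - 2 * Real.pi * k / M) := by
      rw [Real.cos_two_pi_sub]
    rw [e]
    apply Real.cos_lt_cos_of_nonneg_of_le_pi (by positivity) (by linarith)
    rw [lt_sub_iff_add_lt, ← add_div, div_lt_iff₀ hM]
    nlinarith

lemma nd_lt_one {M k : ℕ} (hk : 0 < k) (hkM : k < M) (hM3 : 2 ≤ M) : nd M k < 1 := by
  have h := nd_le hk hkM
  have hM : (2 : ℝ) ≤ M := by exact_mod_cast hM3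
  have hpi := Real.pi_pos
  have h2 : Real.cos (2 * Real.pi / M) < Real.cos 0 := by
    apply Real.cos_lt_cos_of_nonneg_of_le_pi le_rfl _ (by positivity)
    rw [div_le_iff₀ (by linarith)]
    nlinarith
  rw [Real.cos_zero] at h2
  linarith

lemma nd_neg_one_lt {M k : ℕ} (hM : 0 < M) (hk : k < M) (hne : 2 * k ≠ M) : -1 < nd M k := by
  have hMR : (0 : ℝ) < M := by exact_mod_cast hM
  refine lt_of_le_of_ne (Real.neg_one_le_cos _) ?_
  intro h
  unfold nd at h
  obtain ⟨j, hj⟩ := Real.cos_eq_neg_one_iff.mp h.symm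
  have hpi := Real.pi_pos
  have h2 : (2 : ℝ) * k = (1 + 2 * (j : ℝ)) * M := by
    have h3 : (Real.pi + j * (2 * Real.pi)) * M = 2 * Real.pi * k := by
      rw [hj]; field_simp
    have h4 : Real.pi * (2 * k) = Real.pi * ((1 + 2 * (j : ℝ)) * M) := by linarith
    exact mul_left_cancel₀ hpi.ne' h4
  have h3 : (2 * (k : ℤ)) = (1 + 2 * j) * M := by exact_mod_cast h2
  have hk' : (k : ℤ) < M := by exact_mod_cast hk
  have hM' : (0 : ℤ) < M := by exact_mod_cast hM
  have hk0 : (0 : ℤ) ≤ k := Int.natCast_nonneg k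
  have hj0 : j = 0 := by
    have h5 : 0 ≤ (1 + 2 * j) := by
      by_contra hc
      push Not at hc
      have : (1 + 2 * j) * (M : ℤ) < 0 := mul_neg_of_neg_of_pos hc hM'
      omega
    have h6 : 1 + 2 * j < 2 := by
      by_contra hc
      push Not at hc
      have : 2 * (M : ℤ) ≤ (1 + 2 * j) * M := mul_le_mul_of_nonneg_right hc hM'.le
      omega
    omega
  rw [hj0] at h3
  apply hne
  have : (2 * (k : ℤ)) = M := by linarith
  exact_mod_cast this

lemma nd_eq_iff {M k l : ℕ} (hk : 0 < k) (hkM : k < M) (hl : 0 < l) (hlM : l < M)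
    (h : nd M k = nd M l) : k = l ∨ k + l = M := by
  have hM : 0 < M := by omega
  have hMR : (0 : ℝ) < M := by exact_mod_cast hM
  have hpi := Real.pi_pos
  unfold nd at h
  obtain ⟨j, hj⟩ := Real.cos_eq_cos_iff.mp h
  have hk' : (k : ℤ) < M := by exact_mod_cast hkM
  have hl' : (l : ℤ) < M := by exact_mod_cast hlM
  have hk0 : (0 : ℤ) < k := by exact_mod_cast hk
  have hl0 : (0 : ℤ) < l := by exact_mod_cast hl
  have hM' : (0 : ℤ) < M := by exact_mod_cast hM
  rcases hj with hj | hj
  · left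
    have h2 : (l : ℝ) = j * M + k := by
      have h3 : 2 * Real.pi * l = (2 * j * Real.pi + 2 * Real.pi * k / M) * M := by
        rw [← hj]; field_simp
      have h4 : (2 * Real.pi) * (l : ℝ) = (2 * Real.pi) * (j * M + k) := by
        rw [h3]; field_simp
      exact mul_left_cancel₀ (by positivity) h4
    have h3 : (l : ℤ) = j * M + k := by exact_mod_cast h2
    have hj0 : j = 0 := by
      have h5 : -1 < j := by
        by_contra hc
        push Not at hc
        have : j * (M : ℤ) ≤ -1 * M := mul_le_mul_of_nonneg_right hc hM'.le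
        omega
      have h6 : j < 1 := by
        by_contra hc
        push Not at hc
        have : 1 * (M : ℤ) ≤ j * M := mul_le_mul_of_nonneg_right hc hM'.le
        omega
      omega
    rw [hj0] at h3
    omega
  · right
    have h2 : (l : ℝ) = j * M - k := by
      have h3 : 2 * Real.pi * l = (2 * j * Real.pi - 2 * Real.pi * k / M) * M := by
        rw [← hj]; field_simp
      have h4 : (2 * Real.pi) * (l : ℝ) = (2 * Real.pi) * (j * M - k) := by
        rw [h3]; field_simp
      exact mul_left_cancel₀ (by positivity) h4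
    have h3 : (l : ℤ) = j * M - k := by exact_mod_cast h2
    have hj0 : j = 1 := by
      have h5 : 0 < j := by
        by_contra hc
        push Not at hc
        have : j * (M : ℤ) ≤ 0 * M := mul_le_mul_of_nonneg_right hc hM'.le
        omega
      have h6 : j < 2 := by
        by_contra hc
        push Not at hc
        have : 2 * (M : ℤ) ≤ j * M := mul_le_mul_of_nonneg_right hc hM'.le
        omega
      omega
    rw [hj0] at h3
    omega

/-- the vanishing of `q` at the nodes in the case of equality -/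
lemma eq_nodes {N : ℕ} (hN : 1 ≤ N) (p : ℝ[X]) (hdeg : p.natDegree ≤ N)
    (h0 : p.coeff 0 = 0) (h1 : p.coeff 1 = 1)
    (hS : ∀ z : ℂ, ‖z‖ = 1 → 0 ≤ z.im → 0 ≤ (aeval z p).im)
    (hV : -(p.eval (-1)) = VN N) {k : ℕ} (hk : 1 < k) (hkN : k ≤ N) :
    (qpoly p N).eval (nd (N + 2) k) = 0 := by
  set M := N + 2 with hM
  have hA := sum_value p hdeg h0
  have hB := sum_norm hN p h1
  rw [← hM] at hA hB
  set c := Real.cos (2 * Real.pi / (M : ℝ)) with hc
  have hMc : (M : ℝ) = (N : ℝ) + 2 := by rw [hM]; push_cast; ring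
  have hVN := Pool.Agent.Helper809.Koe.VN_eq hN
  rw [← hMc, ← hc] at hVN
  have hterm : ∀ i ∈ range M, 0 ≤ (qpoly p N).eval (nd M i) * (1 - nd M i) * (c - nd M i) := by
    intro i hi
    rw [mem_range] at hi
    have hx : nd M i ∈ Set.Icc (-1 : ℝ) 1 := ⟨Real.neg_one_le_cos _, Real.cos_le_one _⟩
    have hq := qpoly_nonneg p hdeg h0 hS hx
    rcases Nat.eq_zero_or_pos i with h | h
    · subst h
      have : nd M 0 = 1 := by unfold nd; simp
      rw [this]
      simp
    · have h2 := nd_le h hi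
      exact mul_nonneg (mul_nonneg hq (by linarith [hx.2])) (by linarith)
  have hsum : ∑ i ∈ range M, (qpoly p N).eval (nd M i) * (1 - nd M i) * (c - nd M i) = 0 := by
    have e : ∑ i ∈ range M, (qpoly p N).eval (nd M i) * (1 - nd M i) * (c - nd M i) =
        (1 + c) * ∑ i ∈ range M, (qpoly p N).eval (nd M i) * (1 - nd M i) -
        ∑ i ∈ range M, (qpoly p N).eval (nd M i) * (1 - nd M i ^ 2) := by
      rw [mul_sum, ← sum_sub_distrib]
      apply sum_congr rfl
      intro i _
      ring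
    rw [e, hA, hB, hV]
    linear_combination (M : ℝ) / 2 * hVN
  have hz := (sum_eq_zero_iff_of_nonneg hterm).mp hsum k (by rw [mem_range]; omega)
  have h2 : nd M k < 1 := nd_lt_one (by omega) (by omega) (by omega)
  have h3 : nd M k < c := nd_lt hk (by omega)
  have h4 : (qpoly p N).eval (nd M k) * ((1 - nd M k) * (c - nd M k)) = 0 := by
    rw [← mul_assoc]; exact hz
  rcases mul_eq_zero.mp h4 with h5 | h5
  · exact h5
  · have := mul_pos (sub_pos.mpr h2) (sub_pos.mpr h3)
    linarith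

/-- the value at the first node in the case of equality -/
lemma eq_first {N : ℕ} (hN : 1 ≤ N) (p : ℝ[X]) (hdeg : p.natDegree ≤ N)
    (h0 : p.coeff 0 = 0) (h1 : p.coeff 1 = 1)
    (hS : ∀ z : ℂ, ‖z‖ = 1 → 0 ≤ z.im → 0 ≤ (aeval z p).im)
    (hV : -(p.eval (-1)) = VN N) :
    (qpoly p N).eval (nd (N + 2) 1) * (1 - nd (N + 2) 1 ^ 2) = ((N + 2 : ℕ) : ℝ) / 4 := by
  have hB := sum_norm hN p h1
  have hz := fun k hk hkN => eq_nodes hN p hdeg h0 h1 hS hV (k := k) hk hkN
  rw [sum_range_succ, sum_range_succ'] at hB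
  have e0 : nd (N + 2) 0 = 1 := by unfold nd; simp
  have e1 : nd (N + 2) (N + 1) = nd (N + 2) 1 := by
    unfold nd
    have : 2 * Real.pi * ((N + 1 : ℕ) : ℝ) / ((N + 2 : ℕ) : ℝ) =
        2 * Real.pi - 2 * Real.pi * ((1 : ℕ) : ℝ) / ((N + 2 : ℕ) : ℝ) := by
      have : ((N + 2 : ℕ) : ℝ) ≠ 0 := by positivity
      field_simp
      push_cast
      ring
    rw [this, Real.cos_two_pi_sub]
  rw [e0, e1] at hB
  have e2 : ∑ k ∈ range N, (qpoly p N).eval (nd (N + 2) (k + 1)) * (1 - nd (N + 2) (k + 1) ^ 2) =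
      (qpoly p N).eval (nd (N + 2) 1) * (1 - nd (N + 2) 1 ^ 2) := by
    rw [sum_eq_single 0]
    · intro k hk hk0
      rw [mem_range] at hk
      rw [hz (k + 1) (by omega) (by omega), zero_mul]
    · intro h
      simp at h
      omega
  rw [e2] at hB
  linarith

lemma qpoly_natDegree_lt {N : ℕ} (hN : 1 ≤ N) (p : ℝ[X]) : (qpoly p N).natDegree < N := by
  have : (qpoly p N).natDegree ≤ N - 1 := by
    unfold qpoly
    apply natDegree_sum_le_of_forall_le
    intro j hj
    rw [mem_range] at hj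
    refine (natDegree_C_mul_le _ _).trans ?_
    rw [Chebyshev.natDegree_U_natCast]
    omega
  omega

/-- a nonnegative polynomial with an interior zero has a critical point there -/
lemma deriv_root {q : ℝ[X]} (hq : ∀ x ∈ Set.Icc (-1 : ℝ) 1, 0 ≤ q.eval x) {a : ℝ} (h1 : -1 < a)
    (h2 : a < 1) (h0 : q.eval a = 0) : (derivative q).eval a = 0 := by
  have hmin : IsLocalMin (fun x => q.eval x) a := by
    have hnb : Set.Ioo (-1 : ℝ) 1 ∈ nhds a := Ioo_mem_nhds h1 h2
    filter_upwards [hnb] with x hx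
    rw [h0]
    exact hq x ⟨hx.1.le, hx.2.le⟩
  exact hmin.hasDerivAt_eq_zero (q.hasDerivAt a)

/-- **Uniqueness of `q`.** -/
theorem qpoly_unique {N : ℕ} (hN : 1 ≤ N) (p f : ℝ[X]) (hdeg : p.natDegree ≤ N)
    (h0 : p.coeff 0 = 0) (h1 : p.coeff 1 = 1)
    (hS : ∀ z : ℂ, ‖z‖ = 1 → 0 ≤ z.im → 0 ≤ (aeval z p).im)
    (hV : -(p.eval (-1)) = VN N) (hfdeg : f.natDegree ≤ N)
    (hf0 : f.coeff 0 = 0) (hf1 : f.coeff 1 = 1)
    (hfS : ∀ z : ℂ, ‖z‖ = 1 → 0 ≤ z.im → 0 ≤ (aeval z f).im)
    (hfV : -(f.eval (-1)) = VN N) : qpoly p N = qpoly f N := by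
  by_contra hne
  set D := qpoly p N - qpoly f N with hD
  have hD0 : D ≠ 0 := sub_ne_zero.mpr hne
  have hDdeg : D.natDegree < N := by
    have h2 := natDegree_sub_le (qpoly p N) (qpoly f N)
    have h3 := qpoly_natDegree_lt hN p
    have h4 := qpoly_natDegree_lt hN f
    exact lt_of_le_of_lt h2 (max_lt h3 h4)
  have hroot : ∀ k, 0 < k → k ≤ N → D.eval (nd (N + 2) k) = 0 := by
    intro k hk hkN
    rw [hD, eval_sub]
    rcases (show 1 ≤ k by omega).eq_or_lt with h | h
    · rw [← h]
      have a1 := eq_first hN p hdeg h0 h1 hS hV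
      have a2 := eq_first hN f hfdeg hf0 hf1 hfS hfV
      have a3 : nd (N + 2) 1 < 1 := nd_lt_one (by omega) (by omega) (by omega)
      have a4 : -1 < nd (N + 2) 1 := nd_neg_one_lt (by omega) (by omega) (by omega)
      have a5 : 0 < 1 - nd (N + 2) 1 ^ 2 := by nlinarith
      have a6 : ((qpoly p N).eval (nd (N + 2) 1) - (qpoly f N).eval (nd (N + 2) 1)) *
          (1 - nd (N + 2) 1 ^ 2) = 0 := by linarith
      rcases mul_eq_zero.mp a6 with h | h
      · exact h
      · linarith
    · rw [eq_nodes hN p hdeg h0 h1 hS hV h hkN, eq_nodes hN f hfdeg hf0 hf1 hfS hfV h hkN, sub_zero]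
  have hdroot : ∀ k, 1 < k → k ≤ N → 2 * k ≠ N + 2 →
      (derivative D).eval (nd (N + 2) k) = 0 := by
    intro k hk hkN hk2
    rw [hD, derivative_sub, eval_sub]
    have a3 : nd (N + 2) k < 1 := nd_lt_one (by omega) (by omega) (by omega)
    have a4 : -1 < nd (N + 2) k := nd_neg_one_lt (by omega) (by omega) hk2
    rw [deriv_root (fun x hx => qpoly_nonneg p hdeg h0 hS hx) a4 a3
        (eq_nodes hN p hdeg h0 h1 hS hV hk hkN),
      deriv_root (fun x hx => qpoly_nonneg f hfdeg hf0 hfS hx) a4 a3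
        (eq_nodes hN f hfdeg hf0 hf1 hfS hfV hk hkN), sub_zero]
  have hle : (Icc 1 N).val.map (nd (N + 2)) ≤ D.roots := by
    rw [Multiset.le_iff_count]
    intro a
    rw [Multiset.count_map, count_roots]
    have hcard : Multiset.card ((Icc 1 N).val.filter (fun k => a = nd (N + 2) k)) =
        ((Icc 1 N).filter (fun k => a = nd (N + 2) k)).card := rfl
    rw [hcard]
    rcases ((Icc 1 N).filter (fun k => a = nd (N + 2) k)).eq_empty_or_nonempty with he | ⟨k0, hk0⟩
    · rw [he]; simp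
    · rw [mem_filter, mem_Icc] at hk0
      obtain ⟨⟨hk1, hkN⟩, hka⟩ := hk0
      have hr : 0 < D.rootMultiplicity a := by
        rw [rootMultiplicity_pos hD0, IsRoot.def, hka]
        exact hroot k0 (by omega) hkN
      have hsub : (Icc 1 N).filter (fun k => a = nd (N + 2) k) ⊆
          ({k0, N + 2 - k0} : Finset ℕ).filter (fun k => k ≤ N) := by
        intro k hk
        rw [mem_filter, mem_Icc] at hk
        obtain ⟨⟨b1, b2⟩, b3⟩ := hk
        rw [mem_filter, mem_insert, mem_singleton]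
        refine ⟨?_, b2⟩
        rcases nd_eq_iff (M := N + 2) (k := k) (l := k0) (by omega) (by omega) (by omega) (by omega)
          (by rw [← b3, hka]) with h | h
        · left; exact h
        · right; omega
      refine (card_le_card hsub).trans ?_
      by_cases hcase : k0 = 1 ∨ 2 * k0 = N + 2
      · have : ({k0, N + 2 - k0} : Finset ℕ).filter (fun k => k ≤ N) ⊆ {k0} := by
          intro k hk
          rw [mem_filter, mem_insert, mem_singleton] at hk
          rw [mem_singleton]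
          omega
        refine (card_le_card this).trans ?_
        rw [card_singleton]
        exact hr
      · push Not at hcase
        have h2 : 1 < D.rootMultiplicity a := by
          rw [one_lt_rootMultiplicity_iff_isRoot hD0, IsRoot.def, IsRoot.def, hka]
          exact ⟨hroot k0 (by omega) hkN, hdroot k0 (by omega) hkN hcase.2⟩
        refine (card_filter_le _ _).trans ?_
        refine (card_le_two).trans ?_
        omega
  have h5 := Multiset.card_le_card hle
  rw [Multiset.card_map] at h5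
  have h6 : Multiset.card (Icc 1 N).val = N := by
    change (Icc 1 N).card = N
    simp
  rw [h6] at h5
  have h7 := card_roots' D
  omega

/-- the Chebyshev polynomials of the second kind are independent -/
lemma cheb_indep : ∀ (n : ℕ) (a : ℕ → ℝ),
    ∑ j ∈ range n, C (a j) * Chebyshev.U ℝ (j : ℤ) = 0 → ∀ j < n, a j = 0 := by
  intro n
  induction n with
  | zero => intro a _ j hj; omega
  | succ n ih =>
    intro a h j hj
    rw [sum_range_succ] at h
    have hlow : (∑ j ∈ range n, C (a j) * Chebyshev.U ℝ (j : ℤ)).coeff n = 0 := by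
      rw [finsetSum_coeff]
      apply sum_eq_zero
      intro i hi
      rw [mem_range] at hi
      rw [coeff_C_mul, coeff_eq_zero_of_natDegree_lt, mul_zero]
      rw [Chebyshev.natDegree_U_natCast]
      exact hi
    have hc := congrArg (fun q => q.coeff n) h
    simp only [coeff_add, coeff_zero] at hc
    rw [hlow, zero_add, coeff_C_mul] at hc
    have hne : (Chebyshev.U ℝ (n : ℤ)).coeff n ≠ 0 := by
      have h2 : Chebyshev.U ℝ (n : ℤ) ≠ 0 := by
        intro h0
        have := Chebyshev.degree_U_natCast ℝ n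
        rw [h0, degree_zero] at this
        exact absurd this (by simp)
      have h3 := leadingCoeff_ne_zero.mpr h2
      rwa [leadingCoeff, Chebyshev.natDegree_U_natCast] at h3
    have han : a n = 0 := by
      rcases mul_eq_zero.mp hc with h | h
      · exact h
      · exact absurd h hne
    rcases (show j ≤ n by omega).eq_or_lt with h2 | h2
    · rw [h2]; exact han
    · rw [han, C_0, zero_mul, add_zero] at h
      exact ih a h j h2

lemma eq_of_qpoly {N : ℕ} (p f : ℝ[X]) (hdeg : p.natDegree ≤ N) (h0 : p.coeff 0 = 0)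
    (hfdeg : f.natDegree ≤ N) (hf0 : f.coeff 0 = 0) (h : qpoly p N = qpoly f N) : p = f := by
  have h1 : ∑ j ∈ range N, C (p.coeff (j + 1) - f.coeff (j + 1)) * Chebyshev.U ℝ (j : ℤ) = 0 := by
    unfold qpoly at h
    have : ∑ j ∈ range N, C (p.coeff (j + 1) - f.coeff (j + 1)) * Chebyshev.U ℝ (j : ℤ) =
        ∑ j ∈ range N, C (p.coeff (j + 1)) * Chebyshev.U ℝ (j : ℤ) -
        ∑ j ∈ range N, C (f.coeff (j + 1)) * Chebyshev.U ℝ (j : ℤ) := by
      rw [← sum_sub_distrib]
      apply sum_congr rfl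
      intro j _
      rw [C_sub, sub_mul]
    rw [this, h, sub_self]
  have h2 := cheb_indep N _ h1
  rw [poly_sum p hdeg h0, poly_sum f hfdeg hf0]
  apply sum_congr rfl
  intro j hj
  rw [mem_range] at hj
  rw [sub_eq_zero.mp (h2 j hj)]

/-- **Uniqueness at `-1`** among typically real polynomials. -/
theorem eq_FN_of_typically_real {N : ℕ} (hN : 1 ≤ N) (p : ℝ[X]) (hdeg : p.natDegree ≤ N)
    (h0 : p.coeff 0 = 0) (h1 : p.coeff 1 = 1)
    (hS : ∀ z : ℂ, ‖z‖ = 1 → 0 ≤ z.im → 0 ≤ (aeval z p).im)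
    (hV : p.eval (-1) = -VN N) : p = FN N := by
  have hF := FN_inClass hN
  apply eq_of_qpoly p (FN N) hdeg h0 hF.1.le hF.2.1
  apply qpoly_unique hN p (FN N) hdeg h0 h1 hS (by rw [hV, neg_neg]) hF.1.le hF.2.1 hF.2.2.1
  · intro z hz hzi
    exact im_circle_nonneg (FN N) (deriv_zero hF.2.2.1) hF.2.2.2 hz hzi
  · rw [FN_eval_neg_one hN, neg_neg]
    rfl

/-- **Uniqueness at `-1`** in the class. -/
theorem eq_FN {N : ℕ} (hN : 1 ≤ N) {p : ℝ[X]} (hp : InClass N p) (hV : p.eval (-1) = -VN N) :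
    p = FN N := by
  apply eq_FN_of_typically_real hN p hp.1.le hp.2.1 hp.2.2.1 _ hV
  intro z hz hzi
  exact im_circle_nonneg p (deriv_zero hp.2.2.1) hp.2.2.2 hz hzi

theorem eq_FN_refl {N : ℕ} (hN : 1 ≤ N) {p : ℝ[X]} (hp : InClass N p) (hV : p.eval 1 = VN N) :
    p = -((FN N).comp (-X)) := by
  have h := eq_FN hN (class_reflect hp) (by
    simp only [eval_neg, eval_comp, eval_X, neg_neg]
    rw [hV])
  rw [← h]
  simp [neg_comp, comp_assoc]

end Pool.Agent.KS6_16.KU
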