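import Mathlib
import Pool.Graph.R_seed8.Helper766.KoebeRadius
import Pool.Graph.R_seed8.Results.MP_6cc408_an.RealAxisSharp

set_option autoImplicit false

open Polynomial Finset

namespace Pool.Agent.KS6_16.KU

open Pool.Agent.Helper766

/-- `|F_N(e^{it})| ≥ 1/2` for `0 ≤ t ≤ 3π/(N+2)`, `N ≥ 3`. -/
lemma norm_circle_half {N : ℕ} (hN : 3 ≤ N) {t : ℝ} (ht0 : 0 < t)
    (ht : t ≤ 3 * (Real.pi / ((N : ℝ) + 2)))
    (h2 : Real.cos t ≠ Real.cos (2 * Real.pi / ((N : ℝ) + 2))) :
    1 / 2 ≤ ‖aeval (Complex.exp (t * Complex.I)) (FN N)‖ := by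
  have hN3 : (3 : ℝ) ≤ N := by exact_mod_cast hN
  have hM : (0 : ℝ) < (N : ℝ) + 2 := by positivity
  set θ : ℝ := Real.pi / ((N : ℝ) + 2) with hθ
  have hθ0 : 0 < θ := by positivity
  have hMθ : ((N : ℝ) + 2) * θ = Real.pi := by rw [hθ]; field_simp
  have hcosθ := cos_ge (M := (N : ℝ) + 2) (by linarith)
  rw [← hθ] at hcosθ
  have hc2 : 2 * Real.pi / ((N : ℝ) + 2) = 2 * θ := by rw [hθ]; ring
  rw [hc2] at h2
  have hpi := Real.pi_pos
  have htπ : t < Real.pi := by nlinarith
  have h1 : Real.cos t < 1 := by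
    have := Real.cos_lt_cos_of_nonneg_of_le_pi le_rfl htπ.le ht0
    rwa [Real.cos_zero] at this
  have hprod := circle_prod (N := N) (by omega) h1 (by rw [hc2]; exact h2)
  rw [hc2] at hprod
  set c : ℝ := Real.cos (2 * θ) with hc
  set x : ℝ := Real.cos t with hx
  set φ : ℝ := ((N : ℝ) + 2) * t / 2 with hφ
  set F := aeval (Complex.exp (t * Complex.I)) (FN N) with hF
  have hcval : c = 2 * Real.cos θ ^ 2 - 1 := by rw [hc, Real.cos_two_mul]
  have hnorm : 2 * |x - c| * ‖F‖ = ‖1 + ((2 * (1 - c) * (Real.sin t / (1 - x)) /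
      (((N : ℝ) + 2) * (x - c)) * Real.sin φ : ℝ) : ℂ) *
        Complex.exp ((φ : ℂ) * Complex.I)‖ := by
    rw [← hprod, norm_mul, norm_mul, Complex.norm_real, Real.norm_eq_abs]
    simp
  have hxc : 0 < |x - c| := abs_pos.mpr (sub_ne_zero.mpr h2)
  rcases le_or_gt t θ with h | h
  · -- t ≤ θ
    have hxc' : 0 < x - c := by
      have : c < x := by
        rw [hc, hx]
        apply Real.cos_lt_cos_of_nonneg_of_le_pi ht0.le _ (by linarith)
        have : 2 * θ ≤ 2 * (Real.pi / 5) := by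
          have : θ ≤ Real.pi / 5 := by
            rw [hθ]
            apply div_le_div_of_nonneg_left hpi.le (by norm_num) (by linarith)
          linarith
        linarith
      linarith
    have hφ1 : 0 ≤ φ := by positivity
    have hφ2 : φ ≤ Real.pi / 2 := by
      rw [hφ]
      nlinarith
    have hre : 1 ≤ (1 + ((2 * (1 - c) * (Real.sin t / (1 - x)) /
      (((N : ℝ) + 2) * (x - c)) * Real.sin φ : ℝ) : ℂ) *
        Complex.exp ((φ : ℂ) * Complex.I)).re := by
      rw [Complex.add_re, Complex.one_re, Complex.re_ofReal_mul, Complex.exp_ofReal_mul_I_re]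
      have a1 : 0 ≤ Real.cos φ := Real.cos_nonneg_of_mem_Icc ⟨by linarith, hφ2⟩
      have a2 : 0 ≤ Real.sin φ := Real.sin_nonneg_of_nonneg_of_le_pi hφ1 (by linarith)
      have a3 : 0 ≤ Real.sin t := Real.sin_nonneg_of_nonneg_of_le_pi ht0.le htπ.le
      have a4 : 0 ≤ 1 - c := by rw [hc]; linarith [Real.cos_le_one (2 * θ)]
      have a5 : 0 < 1 - x := by linarith
      have : 0 ≤ 2 * (1 - c) * (Real.sin t / (1 - x)) / (((N : ℝ) + 2) * (x - c)) *
        Real.sin φ * Real.cos φ := by positivity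
      linarith
    have h3 := hre.trans (Complex.re_le_norm _)
    rw [← hnorm, abs_of_pos hxc'] at h3
    have h4 : x - c ≤ 18 / 25 := by
      rw [hcval]
      nlinarith
    have h5 : 25 / 36 ≤ ‖F‖ := by
      have : 2 * (x - c) * ‖F‖ ≤ 2 * (18 / 25) * ‖F‖ := by
        apply mul_le_mul_of_nonneg_right _ (norm_nonneg _)
        linarith
      linarith
    linarith
  · -- θ < t ≤ 3θ
    have h3 := norm_line_ge (2 * (1 - c) * (Real.sin t / (1 - x)) /
      (((N : ℝ) + 2) * (x - c)) * Real.sin φ) φ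
    rw [← hnorm] at h3
    set v : ℝ := |t / 2 - θ| with hv
    have hv1 : v ≤ θ / 2 := by
      rw [hv, abs_le]
      constructor <;> linarith
    have hv0 : 0 ≤ v := abs_nonneg _
    have hsin1 : |Real.sin φ| = Real.sin (((N : ℝ) + 2) * v) := by
      have e1 : φ = ((N : ℝ) + 2) * (t / 2 - θ) + Real.pi := by
        rw [hφ]
        linear_combination hMθ
      have e2 : |Real.sin φ| = |Real.sin (((N : ℝ) + 2) * (t / 2 - θ))| := by
        rw [e1, Real.sin_add_pi, abs_neg]
      have e3 : ((N : ℝ) + 2) * v = |((N : ℝ) + 2) * (t / 2 - θ)| := by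
        rw [abs_mul, abs_of_pos hM]
      have e4 : 0 ≤ Real.sin (((N : ℝ) + 2) * v) := by
        apply Real.sin_nonneg_of_nonneg_of_le_pi (by positivity)
        nlinarith
      rw [e2]
      rw [e3] at e4 ⊢
      rcases abs_cases (((N : ℝ) + 2) * (t / 2 - θ)) with ⟨h7, _⟩ | ⟨h7, _⟩
      · rw [h7] at e4 ⊢
        rw [abs_of_nonneg e4]
      · rw [h7] at e4 ⊢
        rw [Real.sin_neg] at e4 ⊢
        rw [abs_of_nonpos (by linarith)]
    have hsin2 : 2 / Real.pi * (((N : ℝ) + 2) * v) ≤ Real.sin (((N : ℝ) + 2) * v) := by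
      apply Real.mul_le_sin (by positivity)
      nlinarith
    have hxc2 : |x - c| ≤ 5 * θ * v := by
      have e1 : x - c = -2 * Real.sin ((t + 2 * θ) / 2) * Real.sin ((t - 2 * θ) / 2) := by
        rw [hx, hc, Real.cos_sub_cos]
      have e2 : |x - c| = 2 * |Real.sin ((t + 2 * θ) / 2)| * |Real.sin ((t - 2 * θ) / 2)| := by
        rw [e1, abs_mul, abs_mul]
        norm_num
      have e3 : |Real.sin ((t - 2 * θ) / 2)| ≤ v := by
        have := Real.abs_sin_le_abs (x := (t - 2 * θ) / 2)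
        have e4 : |(t - 2 * θ) / 2| = v := by rw [hv]; congr 1; ring
        rwa [e4] at this
      have e5 : |Real.sin ((t + 2 * θ) / 2)| ≤ 5 * θ / 2 := by
        have := Real.abs_sin_le_abs (x := (t + 2 * θ) / 2)
        rw [abs_of_pos (show 0 < (t + 2 * θ) / 2 by linarith)] at this
        linarith
      rw [e2]
      calc 2 * |Real.sin ((t + 2 * θ) / 2)| * |Real.sin ((t - 2 * θ) / 2)| ≤
          2 * (5 * θ / 2) * v := by gcongr
        _ = 5 * θ * v := by ring
    rw [hsin1] at h3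
    have h8 : 2 / Real.pi * (((N : ℝ) + 2) * v) ≤ 2 * (5 * θ * v) * ‖F‖ := by
      calc 2 / Real.pi * (((N : ℝ) + 2) * v) ≤ _ := hsin2
        _ ≤ 2 * |x - c| * ‖F‖ := h3
        _ ≤ 2 * (5 * θ * v) * ‖F‖ := by gcongr
    have hvpos : 0 < v := by
      rw [hv]
      apply abs_pos.mpr
      intro h9
      apply h2
      have : t = 2 * θ := by linarith
      rw [hx, hc, this]
    have h10 : 2 / Real.pi * ((N : ℝ) + 2) ≤ 10 * θ * ‖F‖ := by
      have : v * (2 / Real.pi * ((N : ℝ) + 2)) ≤ v * (10 * θ * ‖F‖) := by nlinarith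
      exact le_of_mul_le_mul_left this hvpos
    have h11 : ((N : ℝ) + 2) ^ 2 / (5 * Real.pi ^ 2) ≤ ‖F‖ := by
      rw [div_le_iff₀ (by positivity)]
      have h12 : 2 / Real.pi * ((N : ℝ) + 2) * (((N : ℝ) + 2) * Real.pi / 2) ≤
          10 * θ * ‖F‖ * (((N : ℝ) + 2) * Real.pi / 2) := by
        apply mul_le_mul_of_nonneg_right h10 (by positivity)
      have h13 : 2 / Real.pi * ((N : ℝ) + 2) * (((N : ℝ) + 2) * Real.pi / 2) =
          ((N : ℝ) + 2) ^ 2 := by
        field_simp
      have h14 : 10 * θ * ‖F‖ * (((N : ℝ) + 2) * Real.pi / 2) =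
          ‖F‖ * (5 * Real.pi ^ 2) := by
        calc 10 * θ * ‖F‖ * (((N : ℝ) + 2) * Real.pi / 2) =
            5 * (((N : ℝ) + 2) * θ) * Real.pi * ‖F‖ := by ring
          _ = _ := by rw [hMθ]; ring
      rw [h13, h14] at h12
      exact h12
    have h15 : (1 : ℝ) / 2 ≤ ((N : ℝ) + 2) ^ 2 / (5 * Real.pi ^ 2) := by
      rw [div_le_div_iff₀ (by norm_num) (by positivity)]
      have h16 : Real.pi ^ 2 ≤ 3.15 ^ 2 := by
        apply pow_le_pow_left₀ hpi.le
        linarith [Real.pi_lt_d2]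
      nlinarith
    linarith


/-- real part bound for `cos t ≤ cos (3π/(N+2))`. -/
lemma norm_circle_large_lt {N : ℕ} (hN : 3 ≤ N) {t : ℝ}
    (ht : Real.cos t ≤ xk (N + 1) 2) (ht2 : -1 < Real.cos t) :
    1 / (4 * Real.cos (Real.pi / ((N : ℝ) + 2)) ^ 2) <
      ‖aeval (Complex.exp (t * Complex.I)) (FN N)‖ := by
  obtain ⟨c0, h1, h2, h3⟩ := exists_c0 (n := N + 1) (by omega)
  -- Cp is antitone on [-1, c0]
  have hC : ∀ x, -1 ≤ x → x ≤ 1 → 0 ≤ (x - c0) * (derivative (Cp N)).eval x := by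
    intro x hx1 hx2
    by_cases hne : x = xk (N + 1) 1
    · rw [hne]
      exact mul_nonneg (by linarith) (Cp_deriv_c hN).le
    · have h4 := h3 x hx1 hx2
      rw [Psi_eq hN] at h4
      simp only [eval_mul, eval_pow, eval_sub, eval_X, eval_C, eval_ofNat] at h4
      have h5 : 0 < (x - xk (N + 1) 1) ^ 2 := by
        have := sub_ne_zero.mpr hne
        positivity
      have h6 : 0 ≤ (2 * (x - xk (N + 1) 1) ^ 2) *
          ((x - c0) * (derivative (Cp N)).eval x) := by
        calc 0 ≤ _ := h4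
          _ = _ := by ring
      exact nonneg_of_mul_nonneg_right h6 (by positivity)
  have hanti : AntitoneOn (fun x => (Cp N).eval x) (Set.Icc (-1) c0) := by
    apply antitoneOn_of_deriv_nonpos (convex_Icc _ _) (Cp N).continuous.continuousOn
    · intro x _
      exact ((Cp N).hasDerivAt x).differentiableAt.differentiableWithinAt
    · intro x hx
      rw [interior_Icc] at hx
      rw [((Cp N).hasDerivAt x).deriv]
      have hc01 : c0 < 1 := lt_of_le_of_lt h2 (xk_lt_one (by omega))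
      have := hC x hx.1.le (by linarith [hx.2])
      by_contra hcon
      push Not at hcon
      have := mul_neg_of_neg_of_pos (show x - c0 < 0 by linarith [hx.2]) hcon
      linarith
  have hm1 : -1 ≤ c0 := (neg_one_lt_xk (by omega)).le.trans h1
  have h4 : (Cp N).eval (Real.cos t) < (Cp N).eval (-1) := by
    have h4 := hanti (⟨le_rfl, hm1⟩ : (-1 : ℝ) ∈ Set.Icc (-1) c0)
      (⟨Real.neg_one_le_cos t, ht.trans h1⟩ : Real.cos t ∈ Set.Icc (-1) c0) (Real.neg_one_le_cos t)
    simp only at h4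
    refine lt_of_le_of_ne h4 ?_
    intro heq
    have hconst : ∀ x ∈ Set.Ioo (-1 : ℝ) (Real.cos t), (Cp N).eval x = (Cp N).eval (-1) := by
      intro x hx
      have hxm : x ∈ Set.Icc (-1 : ℝ) c0 := ⟨hx.1.le, hx.2.le.trans (ht.trans h1)⟩
      have a1 := hanti (⟨le_rfl, hm1⟩ : (-1 : ℝ) ∈ Set.Icc (-1) c0) hxm hx.1.le
      have a2 := hanti hxm
        (⟨Real.neg_one_le_cos t, ht.trans h1⟩ : Real.cos t ∈ Set.Icc (-1) c0) hx.2.le
      simp only at a1 a2
      linarith
    have hpoly : Cp N = C ((Cp N).eval (-1)) := by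
      apply Polynomial.eq_of_infinite_eval_eq
      apply (Set.Ioo_infinite ht2).mono
      intro x hx
      simp only [Set.mem_ofPred_eq, eval_C]
      exact hconst x hx
    have hder := Cp_deriv_c hN
    rw [hpoly, derivative_C, eval_zero] at hder
    exact lt_irrefl _ hder
  rw [Cp_eval_cos] at h4
  have h5 : (Cp N).eval (-1) = (FN N).eval (-1) := by
    have h := Cp_eval_cos N Real.pi
    rw [Real.cos_pi, Complex.exp_pi_mul_I] at h
    rw [h]
    have := aeval_ofReal' (FN N) (-1)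
    have h6 : ((-1 : ℝ) : ℂ) = -1 := by simp
    rw [h6] at this
    rw [this, Complex.ofReal_re]
  rw [h5, FN_eval_neg_one (by omega)] at h4
  have h7 := Complex.abs_re_le_norm (aeval (Complex.exp (t * Complex.I)) (FN N))
  have h8 := neg_abs_le (aeval (Complex.exp (t * Complex.I)) (FN N)).re
  linarith


end Pool.Agent.KS6_16.KU
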