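import Mathlib
import Pool.Agent.KS6_16.KU.PSide
import Pool.Graph.R_seed8.Helper499.N5Mid

set_option autoImplicit false

open Polynomial Finset

namespace Pool.Agent.KS6_16.KU

open Pool.Agent.Helper499.KB Pool.Agent.Helper766.G Pool.Agent.Helper766

variable {N : ℕ} {p : ℝ[X]} {ρ δ s : ℝ}

lemma bad_Tt_nonneg (hb : Ext N p ρ δ s) (t : ℝ) (h0 : 0 < t) (h1 : t < Real.pi) :
    0 ≤ Tt (ca p) N t := by
  rw [Tt_eq hb.cls.1.le hb.cls.2.1]
  apply im_circle_nonneg p _ hb.cls.2.2.2 (Complex.norm_exp_ofReal_mul_I t)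
  · rw [Complex.exp_ofReal_mul_I_im]
    exact (Real.sin_pos_of_pos_of_lt_pi h0 h1).le
  · rw [← coeff_zero_eq_eval_zero, coeff_derivative, hb.cls.2.2.1]
    simp

lemma bad_R (hb : Ext N p ρ δ s) : Rr (ca p) N s = ρ * Real.cos δ := by
  rw [Rr_eq hb.cls.1.le hb.cls.2.1, hb.hit, Complex.re_ofReal_mul, Complex.exp_ofReal_mul_I_re]

lemma bad_T (hb : Ext N p ρ δ s) : Tt (ca p) N s = ρ * Real.sin δ := by
  rw [Tt_eq hb.cls.1.le hb.cls.2.1, hb.hit, Complex.im_ofReal_mul, Complex.exp_ofReal_mul_I_im]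

theorem bad_derivs (hb : Ext N p ρ δ s) : ∃ κ : ℝ, 0 ≤ κ ∧ κ ≤ 1 ∧
    HasDerivAt (fun t => Rr (ca p) N t) (-(κ * (ρ * Real.sin δ))) s ∧
    HasDerivAt (fun t => Tt (ca p) N t) (κ * (ρ * Real.cos δ)) s := by
  obtain ⟨κ, h0, h1, hA⟩ := hb.tan
  refine ⟨κ, h0, h1, ?_⟩
  set z0 := Complex.exp ((s : ℂ) * Complex.I) with hz0
  have hc : HasDerivAt (fun t : ℝ => Complex.exp ((t : ℂ) * Complex.I)) (Complex.I * z0) s := by
    have h1 : HasDerivAt (fun t : ℝ => (t : ℂ) * Complex.I) Complex.I s := by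
      simpa using (hasDerivAt_id s).ofReal_comp.mul_const Complex.I
    have h2 := h1.cexp
    exact h2.congr_deriv (by rw [hz0]; ring)
  have h2 := (p.hasDerivAt_aeval z0).comp s hc
  have h7 : aeval z0 (derivative p) * (Complex.I * z0) =
      Complex.I * ((κ : ℂ) * ((ρ : ℂ) * Complex.exp ((δ : ℂ) * Complex.I))) := by
    rw [← hA]; ring
  rw [h7] at h2
  constructor
  · have h3 : HasDerivAt (fun t : ℝ => (aeval (Complex.exp ((t : ℂ) * Complex.I)) p).re) _ s :=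
      (Complex.reCLM.hasFDerivAt).comp_hasDerivAt s h2
    have e : (fun t => Rr (ca p) N t) =
        fun t : ℝ => (aeval (Complex.exp ((t : ℂ) * Complex.I)) p).re := by
      funext t; exact Rr_eq hb.cls.1.le hb.cls.2.1 t
    rw [e]
    apply h3.congr_deriv
    simp only [Complex.reCLM_apply]
    rw [Complex.I_mul_re, Complex.im_ofReal_mul, Complex.im_ofReal_mul, Complex.exp_ofReal_mul_I_im]
  · have h3 : HasDerivAt (fun t : ℝ => (aeval (Complex.exp ((t : ℂ) * Complex.I)) p).im) _ s :=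
      (Complex.imCLM.hasFDerivAt).comp_hasDerivAt s h2
    have e : (fun t => Tt (ca p) N t) =
        fun t : ℝ => (aeval (Complex.exp ((t : ℂ) * Complex.I)) p).im := by
      funext t; exact Tt_eq hb.cls.1.le hb.cls.2.1 t
    rw [e]
    apply h3.congr_deriv
    simp only [Complex.imCLM_apply]
    rw [Complex.I_mul_im, Complex.re_ofReal_mul, Complex.re_ofReal_mul, Complex.exp_ofReal_mul_I_re]

/-- general evaluation of the quotient and its derivative for family I at the bad point -/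
theorem famI_bad (hb : Ext N p ρ δ s) {n : ℕ} {r : ℝ} (hn : 1 ≤ n) (hN : N ≤ 2 * n)
    (hr : |r| ≤ 1) (hq : qI n r s ≠ 0) :
    ∃ (κ : ℝ) (S : Finset ℝ) (W : ℝ → ℝ), 0 ≤ κ ∧ κ ≤ 1 ∧
      (∀ y ∈ S, -1 < y ∧ y < 1 ∧ (Pu n r).eval y = 0 ∧ 0 ≤ W y) ∧
      (∑ y ∈ S, W y / (Real.cos s - y) =
        ρ * Real.cos δ - qR n r s / qI n r s * (ρ * Real.sin δ)) ∧
      (Real.sin s * ∑ y ∈ S, W y / (Real.cos s - y) ^ 2 =
        -(κ * (ρ * Real.sin δ)) - qR n r s / qI n r s * (κ * (ρ * Real.cos δ)) -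
        (ρ * Real.sin δ) * ((-(((n : ℝ) + 1) * Real.sin (((n : ℝ) + 1) * s)) -
          r * (-((n : ℝ) * Real.sin ((n : ℝ) * s)))) * qI n r s -
          qR n r s * (((n : ℝ) + 1) * Real.cos (((n : ℝ) + 1) * s) -
            r * ((n : ℝ) * Real.cos ((n : ℝ) * s)))) / qI n r s ^ 2) ∧
      (2 ≤ n → 1 ≤ N → (N ≤ 2 * n - 1 ∨ r = 0) → ∑ y ∈ S, W y = 1 / 2) := by
  obtain ⟨κ, h0, h1, hR', hT'⟩ := bad_derivs hb
  obtain ⟨S, W, hS, hF, hF', hsum⟩ := famI (ca p) hn hN hr (fun t ht0 ht1 => bad_Tt_nonneg hb t ht0 ht1)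
  refine ⟨κ, S, W, h0, h1, hS, ?_, ?_, ?_⟩
  · rw [← hF s hb.s_pos hb.s_lt hq]
    unfold DI
    rw [bad_R hb, bad_T hb]
    field_simp
  · have hq' := hasDerivAt_qI n r s
    have hqR' := hasDerivAt_qR n r s
    have hD : HasDerivAt (fun t => DI (ca p) N n r t) _ s := (hq'.mul hR').sub (hqR'.mul hT')
    have h := hF' s hb.s_pos hb.s_lt hq _ _ hD hq'
    rw [← h]
    unfold DI
    rw [bad_R hb, bad_T hb]
    field_simp
    ring
  · intro a1 a2 a3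
    rw [hsum a1 a2 a3]
    unfold ca
    rw [zero_add, hb.cls.2.2.1]


/-- the combination is below `ρ` -/
lemma comb_lt {ρ κ M sφ cφ sδ cδ X1 Y2 : ℝ} (hρ : 0 < ρ) (hκ0 : 0 ≤ κ) (hκ1 : κ ≤ 1) (hM : 4 ≤ M)
    (hcd : cδ < 1)
    (hφ : sφ ^ 2 + cφ ^ 2 = 1) (hδ : sδ ^ 2 + cδ ^ 2 = 1) (hc : 0 < cφ)
    (h1 : X1 * cφ = ρ * (cδ * cφ + sφ * sδ))
    (h2 : Y2 * cφ ^ 2 = ρ * (-(κ * sδ) * cφ ^ 2 + κ * cδ * sφ * cφ + M / 2 * sδ)) :
    X1 - 2 * sφ * cφ / M * Y2 < ρ := by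
  have hM0 : 0 < M := by linarith
  set Z := cφ * cδ + sφ * sδ with hZ
  have hZ1 : Z ^ 2 ≤ 1 := by
    have : 1 - Z ^ 2 = (cφ * sδ - sφ * cδ) ^ 2 := by
      rw [hZ]
      linear_combination (-(sδ ^ 2 + cδ ^ 2)) * hφ - hδ
    nlinarith [sq_nonneg (cφ * sδ - sφ * cδ)]
  have hZ2 : cφ * Z ≤ 1 := by nlinarith [sq_nonneg (cφ - Z), sq_nonneg sφ]
  set l := 2 * κ / M with hl
  have hl0 : 0 ≤ l := by positivity
  have hl1 : l < 1 := by
    rw [hl, div_lt_one hM0]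
    linarith
  have e : cφ * (X1 - 2 * sφ * cφ / M * Y2) = ρ * cφ * ((1 - l) * cδ + l * (cφ * Z)) := by
    obtain ⟨k, hk⟩ : ∃ k, k = 1 / M := ⟨_, rfl⟩
    have hMk : M * k = 1 := by rw [hk]; field_simp
    have e1 : 2 * sφ * cφ / M = 2 * sφ * cφ * k := by rw [hk]; ring
    have e2 : l = 2 * κ * k := by rw [hl, hk]; ring
    rw [e1, e2, hZ]
    linear_combination h1 - (2 * sφ * k) * h2 - (2 * k * κ * ρ * cφ * cδ) * hφ -
      (ρ * sφ * sδ) * hMk
  have e2 : (1 - l) * cδ + l * (cφ * Z) < 1 := by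
    have h2 : (1 - l) * cδ < (1 - l) * 1 := mul_lt_mul_of_pos_left hcd (by linarith)
    have h3 : l * (cφ * Z) ≤ l * 1 := mul_le_mul_of_nonneg_left hZ2 hl0
    linarith
  have e3 : cφ * (X1 - 2 * sφ * cφ / M * Y2) < cφ * ρ := by
    rw [e]
    calc ρ * cφ * ((1 - l) * cδ + l * (cφ * Z)) < ρ * cφ * 1 :=
          mul_lt_mul_of_pos_left e2 (by positivity)
      _ = cφ * ρ := by ring
  exact lt_of_mul_lt_mul_left e3 hc.le

/-- evaluation of the quadrature identity for `r = 1`, `n = 3` -/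
lemma ident5 {p : ℝ[X]} {ρ δ s : ℝ} (hb : Ext 5 p ρ δ s) (hs : s < Real.pi / 7) :
    ∃ (κ : ℝ) (S : Finset ℝ) (W : ℝ → ℝ), 0 ≤ κ ∧ κ ≤ 1 ∧
      (∀ y ∈ S, -1 < y ∧ y < 1 ∧ (Pu 3 1).eval y = 0 ∧ 0 ≤ W y) ∧
      ((∑ y ∈ S, W y / (Real.cos s - y)) * Real.cos (7 * s / 2) =
        ρ * (Real.cos δ * Real.cos (7 * s / 2) + Real.sin (7 * s / 2) * Real.sin δ)) ∧
      ((Real.sin s * ∑ y ∈ S, W y / (Real.cos s - y) ^ 2) * Real.cos (7 * s / 2) ^ 2 =
        ρ * (-(κ * Real.sin δ) * Real.cos (7 * s / 2) ^ 2 +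
          κ * Real.cos δ * Real.sin (7 * s / 2) * Real.cos (7 * s / 2) + 7 / 2 * Real.sin δ)) ∧
      ∑ y ∈ S, W y = 1 / 2 := by
  have hs0 := hb.s_pos
  have hpi := Real.pi_pos
  obtain ⟨sh, hsh⟩ : ∃ x, x = Real.sin (s / 2) := ⟨_, rfl⟩
  obtain ⟨ch, hch⟩ : ∃ x, x = Real.cos (s / 2) := ⟨_, rfl⟩
  obtain ⟨sφ, hsφ⟩ : ∃ x, x = Real.sin (7 * s / 2) := ⟨_, rfl⟩
  obtain ⟨cφ, hcφ⟩ : ∃ x, x = Real.cos (7 * s / 2) := ⟨_, rfl⟩
  have hsh0 : 0 < sh := by rw [hsh]; exact Real.sin_pos_of_pos_of_lt_pi (by linarith) (by linarith)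
  have hcφ0 : 0 < cφ := by rw [hcφ]; exact Real.cos_pos_of_mem_Ioo ⟨by linarith, by linarith⟩
  have h4s : Real.sin (((3 : ℕ) + 1 : ℝ) * s) = sφ * ch + cφ * sh := by
    rw [show ((3 : ℕ) + 1 : ℝ) * s = 7 * s / 2 + s / 2 by push_cast; ring, Real.sin_add, hsφ, hch,
      hcφ, hsh]
  have h3s : Real.sin (((3 : ℕ) : ℝ) * s) = sφ * ch - cφ * sh := by
    rw [show ((3 : ℕ) : ℝ) * s = 7 * s / 2 - s / 2 by push_cast; ring, Real.sin_sub, hsφ, hch,
      hcφ, hsh]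
  have h4c : Real.cos (((3 : ℕ) + 1 : ℝ) * s) = cφ * ch - sφ * sh := by
    rw [show ((3 : ℕ) + 1 : ℝ) * s = 7 * s / 2 + s / 2 by push_cast; ring, Real.cos_add, hsφ, hch,
      hcφ, hsh]
  have h3c : Real.cos (((3 : ℕ) : ℝ) * s) = cφ * ch + sφ * sh := by
    rw [show ((3 : ℕ) : ℝ) * s = 7 * s / 2 - s / 2 by push_cast; ring, Real.cos_sub, hsφ, hch,
      hcφ, hsh]
  have hqI : qI 3 1 s = 2 * cφ * sh := by
    unfold qI; rw [h4s, h3s]; ring
  have hqR : qR 3 1 s = -(2 * sφ * sh) := by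
    unfold qR; rw [h4c, h3c]; ring
  have hq0 : qI 3 1 s ≠ 0 := by rw [hqI]; positivity
  obtain ⟨κ, S, W, hκ0, hκ1, hS, hX1, hX2, hsum⟩ := famI_bad hb (n := 3) (r := 1) (by norm_num)
    (by norm_num) (by norm_num) hq0
  rw [hqI, hqR, h4s, h3s, h4c, h3c] at hX2
  rw [hqI, hqR] at hX1
  have hφ := Real.sin_sq_add_cos_sq (7 * s / 2)
  rw [← hsφ, ← hcφ] at hφ
  refine ⟨κ, S, W, hκ0, hκ1, hS, ?_, ?_, hsum (by norm_num) (by norm_num) (Or.inl (by norm_num))⟩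
  · rw [hX1, ← hcφ, ← hsφ]
    field_simp
    ring
  · rw [hX2, ← hcφ, ← hsφ]
    field_simp
    push_cast
    ring_nf
    linear_combination (7 * ρ * sh * Real.sin δ) * hφ

/-- **N = 5**: the bad point has `s > 11/25` once `s ≥ 3/10`. -/
theorem n5_mid {p : ℝ[X]} {ρ δ s : ℝ} (hb : Ext 5 p ρ δ s) (h : 3 / 10 ≤ s) : 11 / 25 < s := by
  by_contra hcon
  push Not at hcon
  have hpi3 : 3.1415 < Real.pi := Real.pi_gt_d4
  have hpi4 : Real.pi < 3.1416 := Real.pi_lt_d4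
  have hρ := hb.rho_pos
  have hs0 : 0 < s := by linarith
  have hs7 : s < Real.pi / 7 := by linarith
  have hcd : Real.cos δ < 1 := by
    have := Real.cos_lt_cos_of_nonneg_of_le_pi le_rfl (by linarith [hb.d_le]) hb.d_pos
    rwa [Real.cos_zero] at this
  obtain ⟨c7, hc7⟩ : ∃ x, x = Real.cos (Real.pi / 7) := ⟨_, rfl⟩
  obtain ⟨D, hD⟩ : ∃ x, x = 1 + Real.cos (2 * Real.pi / 7) := ⟨_, rfl⟩
  have hD2 : D = 2 * c7 ^ 2 := by
    rw [hD, hc7, show 2 * Real.pi / 7 = 2 * (Real.pi / 7) by ring, Real.cos_two_mul]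
    ring
  have hc7l : 0.899 ≤ c7 := by
    have h1 := Real.one_sub_sq_div_two_le_cos (x := Real.pi / 7)
    rw [hc7]
    nlinarith
  have hDl : 1.61 ≤ D := by rw [hD2]; nlinarith
  have hD0 : 0 < D := by linarith
  have hV : ρ = 1 / (2 * D) := by
    have h1 := hb.rho_eq
    unfold VN at h1
    have e : Real.pi / (((5 : ℕ) : ℝ) + 2) = Real.pi / 7 := by norm_num
    rw [e, ← hc7] at h1
    have e2 : 4 * c7 ^ 2 = 2 * D := by rw [hD2]; ring
    rwa [e2] at h1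
  obtain ⟨κ, S, W, hκ0, hκ1, hS, hX1, hX2, hsum⟩ := ident5 hb hs7
  have hcφ0 : 0 < Real.cos (7 * s / 2) := Real.cos_pos_of_mem_Ioo ⟨by linarith, by linarith⟩
  have hcomb := comb_lt (M := 7) hρ hκ0 hκ1 (by norm_num) hcd (Real.sin_sq_add_cos_sq (7 * s / 2))
    (Real.sin_sq_add_cos_sq δ) hcφ0 hX1 hX2
  obtain ⟨m, hm⟩ : ∃ x, x = Real.sin s * Real.sin (7 * s) / 7 := ⟨_, rfl⟩
  have hsin7 : Real.sin (7 * s) = 2 * Real.sin (7 * s / 2) * Real.cos (7 * s / 2) := by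
    rw [show 7 * s = 2 * (7 * s / 2) by ring, Real.sin_two_mul]
    ring_nf
  have hcomb2 : ∑ y ∈ S, W y / (Real.cos s - y) - m * ∑ y ∈ S, W y / (Real.cos s - y) ^ 2 < ρ := by
    have : 2 * Real.sin (7 * s / 2) * Real.cos (7 * s / 2) / 7 *
        (Real.sin s * ∑ y ∈ S, W y / (Real.cos s - y) ^ 2) =
        m * ∑ y ∈ S, W y / (Real.cos s - y) ^ 2 := by
      rw [hm, hsin7]; ring
    rw [this] at hcomb
    exact hcomb
  obtain ⟨n1, n2, n3⟩ := num5 h hcon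
  obtain ⟨sh, hsh⟩ : ∃ x, x = Real.sin (s / 2) := ⟨_, rfl⟩
  rw [← hsh] at n1 n2
  have hsins : Real.sin s = 2 * sh * Real.cos (s / 2) := by
    rw [hsh, show s = 2 * (s / 2) by ring, Real.sin_two_mul]
    ring_nf
  have hcoss : Real.cos s = 1 - 2 * sh ^ 2 := by
    have hh := Real.sin_sq_add_cos_sq (s / 2)
    rw [hsh, show s = 2 * (s / 2) by ring, Real.cos_two_mul]
    have : 2 * (s / 2) / 2 = s / 2 := by ring
    rw [this]
    linarith
  have hsins0 : 0 < Real.sin s := Real.sin_pos_of_pos_of_lt_pi hs0 (by linarith)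
  have hsin7p : 0 ≤ Real.sin (7 * s) :=
    (Real.sin_pos_of_pos_of_lt_pi (by linarith) (by linarith)).le
  have hm1 : m ≤ 0.2472 * sh := by
    rw [hm]
    have h1 : Real.sin s ≤ 2 * sh := by
      rw [hsins]
      have := Real.cos_le_one (s / 2)
      nlinarith
    have : Real.sin s * Real.sin (7 * s) ≤ 2 * sh * 0.865 := by
      apply mul_le_mul h1 n3 hsin7p (by linarith)
    linarith
  have hw : D * m ≤ (Real.cos s + Real.cos (2 * Real.pi / 7)) *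
      (D - (Real.cos s + Real.cos (2 * Real.pi / 7))) := by
    have e1 : Real.cos s + Real.cos (2 * Real.pi / 7) = D - 2 * sh ^ 2 := by
      rw [hD, hcoss]; ring
    rw [e1]
    have h2 : D * m ≤ D * (0.2472 * sh) := mul_le_mul_of_nonneg_left hm1 hD0.le
    have h3 : D * (0.2472 * sh) ≤ (D - 2 * sh ^ 2) * (2 * sh ^ 2) := by
      have h4 : D * 0.2472 ≤ (D - 2 * sh ^ 2) * (2 * sh) := by
        have h5 : sh ^ 2 ≤ 0.0484 := by nlinarith
        have h6 : (D - 0.0968) * (2 * 0.149) ≤ (D - 2 * sh ^ 2) * (2 * sh) := by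
          apply mul_le_mul <;> linarith
        linarith
      have := mul_le_mul_of_nonneg_right h4 (show 0 ≤ sh by linarith)
      calc D * (0.2472 * sh) = D * 0.2472 * sh := by ring
        _ ≤ (D - 2 * sh ^ 2) * (2 * sh) * sh := this
        _ = _ := by ring
    calc D * m ≤ D * (0.2472 * sh) := h2
      _ ≤ _ := h3
      _ = _ := by ring
  have hvv : D * m ≤ (Real.cos s - c7) * (D - (Real.cos s - c7)) := by
    rw [hc7]
    apply endpoint_v hs0 hs7 (by linarith) hDl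
    · have e1 : Real.sin (7 * s) = Real.sin (7 * (Real.pi / 7 - s)) := by
        rw [show 7 * (Real.pi / 7 - s) = Real.pi - 7 * s by ring, Real.sin_pi_sub]
      have h1 := Pool.Agent.Helper499.KB.abs_sin_nat_mul_le 7 (Real.pi / 7 - s)
      have h2 : 0 ≤ Real.sin (Real.pi / 7 - s) :=
        (Real.sin_pos_of_pos_of_lt_pi (by linarith) (by linarith)).le
      rw [abs_of_nonneg h2] at h1
      have h3 : Real.sin (7 * s) ≤ 7 * Real.sin (Real.pi / 7 - s) := by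
        rw [e1]
        have := le_trans (le_abs_self _) h1
        push_cast at this
        exact this
      rw [hm]
      have := mul_le_mul_of_nonneg_left h3 hsins0.le
      linarith
    · have := Real.sin_le (show 0 ≤ Real.pi / 7 by linarith)
      linarith
  have hlow : 1 / D * (1 / 2) ≤ ∑ y ∈ S, W y / (Real.cos s - y) -
      m * ∑ y ∈ S, W y / (Real.cos s - y) ^ 2 := by
    have e : ∑ y ∈ S, W y / (Real.cos s - y) - m * ∑ y ∈ S, W y / (Real.cos s - y) ^ 2 =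
        ∑ y ∈ S, W y * (1 / (Real.cos s - y) - m / (Real.cos s - y) ^ 2) := by
      rw [mul_sum, ← sum_sub_distrib]
      apply sum_congr rfl
      intro y _
      ring
    rw [e, ← hsum, mul_sum]
    apply sum_le_sum
    intro y hy
    obtain ⟨h1, h2, h3, h4⟩ := hS y hy
    obtain ⟨h5, h6⟩ := nodes7 h1 h2 h3
    rw [← hc7] at h6
    have hv0 : 0 < Real.cos s - c7 := by
      have := Real.cos_lt_cos_of_nonneg_of_le_pi hs0.le (by linarith : Real.pi / 7 ≤ Real.pi)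
        (by linarith)
      rw [← hc7] at this
      linarith
    have h7 := node_bound (D := D) (m := m) (v := Real.cos s - c7)
      (w := Real.cos s + Real.cos (2 * Real.pi / 7)) (u := Real.cos s - y) hD0 hv0 hvv hw
      (by linarith) (by linarith)
    rw [mul_comm]
    exact mul_le_mul_of_nonneg_left h7 h4
  have : ρ = 1 / D * (1 / 2) := by
    rw [show 1 / D * (1 / 2) = 1 / (2 * D) by field_simp]
    exact hV
  linarith

end Pool.Agent.KS6_16.KU
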