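import Mathlib
import Pool.Agent.KS6_16.KU.SLow
import Pool.Graph.R_seed8.Helper809.Koe.Small

set_option autoImplicit false

open Polynomial Finset

namespace Pool.Agent.KS6_16.KU

open Pool.Agent.Helper809.Koe Pool.Agent.Helper766 Pool.Agent.Helper766.G
open Pool.Agent.Results.MP_6cc408_an.RealAxisSharp

lemma F_lower_lt {b c x V : ℝ} (hV0 : 0 < V) (hV : V < 38197 / 100000) (hx1 : -1 < x) (hx2 : x < 1)
    (hc : |c| ≤ 1 / 3) (hcne : c ≠ 0)
    (hq : ∀ y : ℝ, -1 ≤ y → y ≤ 1 → 0 ≤ 1 - c + 2 * b * y + 4 * c * y ^ 2)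
    (h1 : V ≤ 1 - b + c) (h2 : V ≤ 1 + b + c) :
    V ^ 2 < b ^ 2 + (1 - c) ^ 2 + 2 * b * (1 + c) * x + 4 * c * x ^ 2 := by
  obtain ⟨hc1, hc2⟩ := abs_le.mp hc
  have e1 : V ^ 2 ≤ (1 - b + c) ^ 2 := pow_le_pow_left₀ hV0.le h1 2
  have e2 : V ^ 2 ≤ (1 + b + c) ^ 2 := pow_le_pow_left₀ hV0.le h2 2
  rcases lt_or_gt_of_ne hcne with hc0 | hc0
  · -- concave
    have e3 : b ^ 2 + (1 - c) ^ 2 + 2 * b * (1 + c) * x + 4 * c * x ^ 2 =
        (1 - x) / 2 * (1 - b + c) ^ 2 + (1 + x) / 2 * (1 + b + c) ^ 2 - 4 * c * (1 - x ^ 2) := by ring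
    rw [e3]
    have e4 : 0 < -4 * c * (1 - x ^ 2) := by
      apply mul_pos (by linarith)
      nlinarith
    have e5 : (1 - x) / 2 * V ^ 2 ≤ (1 - x) / 2 * (1 - b + c) ^ 2 :=
      mul_le_mul_of_nonneg_left e1 (by linarith)
    have e6 : (1 + x) / 2 * V ^ 2 ≤ (1 + x) / 2 * (1 + b + c) ^ 2 :=
      mul_le_mul_of_nonneg_left e2 (by linarith)
    linarith
  · -- convex
    rcases le_or_gt (4 * c) (b * (1 + c)) with h3 | h3
    · -- min at -1
      have e3 : b ^ 2 + (1 - c) ^ 2 + 2 * b * (1 + c) * x + 4 * c * x ^ 2 =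
        (1 - b + c) ^ 2 + (x + 1) * (2 * (b * (1 + c) - 4 * c) + 4 * c * (x + 1)) := by ring
      rw [e3]
      have : 0 < (x + 1) * (2 * (b * (1 + c) - 4 * c) + 4 * c * (x + 1)) := by
        apply mul_pos (by linarith)
        have : 0 < 4 * c * (x + 1) := mul_pos (by linarith) (by linarith)
        linarith
      linarith
    · rcases le_or_gt (b * (1 + c)) (-(4 * c)) with h4 | h4
      · have e3 : b ^ 2 + (1 - c) ^ 2 + 2 * b * (1 + c) * x + 4 * c * x ^ 2 =
          (1 + b + c) ^ 2 + (1 - x) * (2 * (-(b * (1 + c)) - 4 * c) + 4 * c * (1 - x)) := by ring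
        rw [e3]
        have : 0 < (1 - x) * (2 * (-(b * (1 + c)) - 4 * c) + 4 * c * (1 - x)) := by
          apply mul_pos (by linarith)
          have : 0 < 4 * c * (1 - x) := mul_pos (by linarith) (by linarith)
          linarith
        linarith
      · -- interior vertex
        have hb2 : (b * (1 + c)) ^ 2 ≤ (4 * c) ^ 2 := by
          apply sq_le_sq'
          · linarith
          · linarith
        have e3 : (1 - c) ^ 2 * (4 * c - b ^ 2) ≤ 4 * c * (b ^ 2 + (1 - c) ^ 2 +
            2 * b * (1 + c) * x + 4 * c * x ^ 2) := by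
          nlinarith [sq_nonneg (4 * c * x + b * (1 + c))]
        suffices h : 4 * c * V ^ 2 < (1 - c) ^ 2 * (4 * c - b ^ 2) by
          have h5 : 4 * c * V ^ 2 < 4 * c * (b ^ 2 + (1 - c) ^ 2 +
            2 * b * (1 + c) * x + 4 * c * x ^ 2) := h.trans_le e3
          exact lt_of_mul_lt_mul_left h5 (by linarith)
        have hV2 : V ^ 2 ≤ 1459011 / 10000000 := by nlinarith
        rcases le_or_gt c (2955 / 10000) with h5 | h5
        · -- b² ≤ 16c²/(1+c)²
          have h6 : b ^ 2 * (1 + c) ^ 2 ≤ 16 * c ^ 2 := by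
            calc b ^ 2 * (1 + c) ^ 2 = (b * (1 + c)) ^ 2 := by ring
              _ ≤ (4 * c) ^ 2 := hb2
              _ = _ := by ring
          have h7 : 4 * c * (1 - c) ^ 2 ≤ (4 * c - b ^ 2) * (1 + c) ^ 2 := by linarith
          have h8 : V * (1 + c) < (1 - c) ^ 2 := by
            have g1 : V * (1 + c) < 38197 / 100000 * (1 + c) :=
              mul_lt_mul_of_pos_right hV (by linarith)
            have g2 : 0 ≤ (2955 / 10000 - c) * (2 + 38197 / 100000 - 2955 / 10000 - c) :=
              mul_nonneg (by linarith) (by linarith)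
            nlinarith
          have h9 : (V * (1 + c)) ^ 2 < ((1 - c) ^ 2) ^ 2 :=
            pow_lt_pow_left₀ h8 (by positivity) (by norm_num)
          have hc14 : 0 < 1 - c := by linarith
          have h10 : 4 * c * V ^ 2 * (1 + c) ^ 2 < (1 - c) ^ 2 * (4 * c - b ^ 2) * (1 + c) ^ 2 := by
            calc 4 * c * V ^ 2 * (1 + c) ^ 2 = 4 * c * (V * (1 + c)) ^ 2 := by ring
              _ < 4 * c * ((1 - c) ^ 2) ^ 2 := by gcongr
              _ = (1 - c) ^ 2 * (4 * c * (1 - c) ^ 2) := by ring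
              _ ≤ (1 - c) ^ 2 * ((4 * c - b ^ 2) * (1 + c) ^ 2) := by gcongr
              _ = _ := by ring
          exact lt_of_mul_lt_mul_right h10 (by positivity)
        · -- discriminant
          have hv : |b / (4 * c)| ≤ 1 := by
            rw [abs_div, abs_of_pos (by linarith : 0 < 4 * c), div_le_one (by linarith), abs_le]
            constructor
            · nlinarith
            · nlinarith
          obtain ⟨hv1, hv2⟩ := abs_le.mp hv
          have h6 := hq (-(b / (4 * c))) (by linarith) (by linarith)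
          have h7 : 1 - c + 2 * b * -(b / (4 * c)) + 4 * c * (-(b / (4 * c))) ^ 2 =
              1 - c - b ^ 2 / (4 * c) := by field_simp; ring
          rw [h7] at h6
          have h8 : b ^ 2 ≤ 4 * c * (1 - c) := by
            have : b ^ 2 / (4 * c) ≤ 1 - c := by linarith
            rw [div_le_iff₀ (by linarith)] at this
            linarith
          have h9 : 4 * c * c ≤ 4 * c - b ^ 2 := by linarith
          have h10 : V ^ 2 < (1 - c) ^ 2 * c := by
            obtain ⟨d, rfl⟩ : ∃ d, c = 2955 / 10000 + d := ⟨c - 2955 / 10000, by ring⟩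
            have hd0 : 0 < d := by linarith
            have hd1 : d ≤ 38 / 1000 := by linarith
            have e : (1 - (2955 / 10000 + d)) ^ 2 * (2955 / 10000 + d) =
                (7045 / 10000) ^ 2 * (2955 / 10000) + d * (8 / 100 - 11136 / 10000 * d) +
                  d * (d ^ 2 + (7045 / 10000) ^ 2 - 2 * (7045 / 10000) * (2955 / 10000) -
                    8 / 100 + (11136 / 10000 - 2 * (7045 / 10000) + 2955 / 10000) * d) := by ring
            have e1 : 0 ≤ d * (8 / 100 - 11136 / 10000 * d) := mul_nonneg hd0.le (by linarith)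
            have e2 : d * (d ^ 2 + (7045 / 10000) ^ 2 - 2 * (7045 / 10000) * (2955 / 10000) -
                    8 / 100 + (11136 / 10000 - 2 * (7045 / 10000) + 2955 / 10000) * d) ≥
                d * (-(1 / 1000)) := by
              apply mul_le_mul_of_nonneg_left _ hd0.le
              norm_num
              nlinarith [sq_nonneg d]
            rw [e]
            norm_num at e1 e2 ⊢
            linarith
          have hc14 : 0 < 1 - c := by linarith
          calc 4 * c * V ^ 2 < 4 * c * ((1 - c) ^ 2 * c) := by gcongr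
            _ = (1 - c) ^ 2 * (4 * c * c) := by ring
            _ ≤ (1 - c) ^ 2 * (4 * c - b ^ 2) := by gcongr

lemma re_strict {s : ℝ} (h0 : 0 < s) (h1 : s < Real.pi) :
    -1 < (Complex.exp ((s : ℂ) * Complex.I)).re ∧ (Complex.exp ((s : ℂ) * Complex.I)).re < 1 := by
  rw [Complex.exp_ofReal_mul_I_re]
  constructor
  · have := Real.cos_lt_cos_of_nonneg_of_le_pi h0.le le_rfl h1
    rwa [Real.cos_pi] at this
  · have := Real.cos_lt_cos_of_nonneg_of_le_pi le_rfl h1.le h0
    rwa [Real.cos_zero] at this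

theorem case3 {p : ℝ[X]} {ρ δ s : ℝ} (hb : Ext 3 p ρ δ s) : False := by
  have hp := hb.cls
  have hV0 : 0 < VN 3 := VN_pos (by norm_num)
  have hz : ‖Complex.exp ((s : ℂ) * Complex.I)‖ = 1 := Complex.norm_exp_ofReal_mul_I s
  have h1 := norm_three hp.1.le hp.2.1 hp.2.2.1 hz
  obtain ⟨ha, hb'⟩ := vn_axis (by norm_num) hp
  rw [eval_three hp.1.le hp.2.1 hp.2.2.1] at ha hb'
  obtain ⟨hx1, hx2⟩ := re_strict hb.s_pos hb.s_lt
  have hc3 : p.coeff 3 ≠ 0 := by
    have hp0 : p ≠ 0 := by
      intro h0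
      have := hp.1
      rw [h0] at this
      simp at this
    have := leadingCoeff_ne_zero.mpr hp0
    rwa [leadingCoeff, hp.1] at this
  have h2 := F_lower_lt (b := p.coeff 2) (c := p.coeff 3) hV0 vn3 hx1 hx2 (coeff_three_le hp) hc3 (by
    intro y hy1 hy2
    have := qpoly_nonneg p (bad_deg hb) hb.cls.2.1 (bad_circle hb) (x := y) ⟨hy1, hy2⟩
    unfold qpoly at this
    simp only [sum_range_succ, sum_range_zero, Nat.cast_zero, Nat.cast_one, zero_add,
      Chebyshev.U_zero, Chebyshev.U_one, eval_add, eval_mul, eval_C, eval_one, eval_ofNat, eval_X,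
      hp.2.2.1, eval_zero] at this
    have e2 : ((2 : ℕ) : ℤ) = 2 := rfl
    rw [e2, Chebyshev.U_two] at this
    simp at this
    linarith) (by linarith) (by linarith)
  rw [← h1, hb.hit, norm_mul, Complex.norm_real, Complex.norm_exp_ofReal_mul_I, mul_one,
    Real.norm_eq_abs, abs_of_pos hb.rho_pos] at h2
  have h3 := hb.rho_eq
  rw [h3] at h2
  exact lt_irrefl _ h2

lemma VN_two : VN 2 = 1 / 2 := by
  have h := VN_eq (N := 2) (by norm_num)
  have e : 2 * Real.pi / (((2 : ℕ) : ℝ) + 2) = Real.pi / 2 := by push_cast; ring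
  rw [e, Real.cos_pi_div_two] at h
  linarith

theorem case2 {p : ℝ[X]} {ρ δ s : ℝ} (hb : Ext 2 p ρ δ s) : False := by
  have hp := hb.cls
  have hz : ‖Complex.exp ((s : ℂ) * Complex.I)‖ = 1 := Complex.norm_exp_ofReal_mul_I s
  have hd : p.natDegree ≤ 3 := by rw [hp.1]; norm_num
  have h1 := norm_three hd hp.2.1 hp.2.2.1 hz
  obtain ⟨ha, hb'⟩ := vn_axis (by norm_num) hp
  rw [eval_three hd hp.2.1 hp.2.2.1] at ha hb'
  have hc3 : p.coeff 3 = 0 := coeff_eq_zero_of_natDegree_lt (by rw [hp.1]; norm_num)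
  obtain ⟨hx1, hx2⟩ := re_strict hb.s_pos hb.s_lt
  rw [hb.hit, norm_mul, Complex.norm_real, Complex.norm_exp_ofReal_mul_I, mul_one,
    Real.norm_eq_abs, abs_of_pos hb.rho_pos, hb.rho_eq] at h1
  rw [hc3] at h1 ha hb'
  rw [VN_two] at h1 ha hb'
  set b := p.coeff 2
  set x := (Complex.exp ((s : ℂ) * Complex.I)).re
  have e1 : -(1 / 2) ≤ b := by linarith
  have e2 : b ≤ 1 / 2 := by linarith
  have e3 : (1 / 2 : ℝ) ^ 2 = b ^ 2 + 1 + 2 * b * x := by linarith
  rcases le_or_gt 0 b with h | h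
  · have : 0 ≤ b * (x + 1) := mul_nonneg h (by linarith)
    rcases h.eq_or_lt with h0 | h0
    · rw [← h0] at e3; norm_num at e3
    · have : 0 < b * (x + 1) := mul_pos h0 (by linarith)
      nlinarith
  · have : 0 < -b * (1 - x) := mul_pos (by linarith) (by linarith)
    nlinarith

end Pool.Agent.KS6_16.KU
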