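import Mathlib
import Pool.Agent.KS6_16.KU.Five
import Pool.Agent.KS6_16.KU.N5
import Pool.Agent.KS6_16.KU.Small
import Pool.Graph.R_seed8.Results.MP_6cc408_an.KoebeRadiusExact

set_option autoImplicit false

open Polynomial

namespace Pool.Agent.KS6_16.KU

open Pool.Agent.Helper766 Pool.Agent.Helper766.G Pool.Agent.Results.MP_6cc408_an.RealAxisSharp

theorem no_ext {N : ℕ} (hN : 2 ≤ N) {p : ℝ[X]} {ρ δ s : ℝ} (hb : Ext N p ρ δ s) : False := by
  have hG := hb.gs
  have hB := ext_bside hb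
  rcases Nat.lt_or_ge N 6 with h | h
  · interval_cases N
    · exact case2 hb
    · exact case3 hb
    · exact case4 hb hG hB
    · exact n5_high hb hG hB (n5_mid hb (n5_low hb).le)
  · exact case_ge6 h hb hG hB

/-- the nearest boundary value of an extremal polynomial is real -/
theorem lim_real {N : ℕ} (hN : 2 ≤ N) {p : ℝ[X]} {z : ℂ} (h : Lim N p z)
    (hV : ‖aeval z p‖ = VN N) : (aeval z p).im = 0 := by
  -- positive imaginary and nonnegative real part
  have k1 : ∀ (q : ℝ[X]) (y : ℂ), Lim N q y → ‖aeval y q‖ = VN N → 0 ≤ (aeval y q).re →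
      ¬ 0 < (aeval y q).im := by
    intro q y hq hq2 hre him
    exact no_ext hN (ext_of_lim hq him hre hq2)
  have k2 : ∀ (q : ℝ[X]) (y : ℂ), Lim N q y → ‖aeval y q‖ = VN N → 0 ≤ (aeval y q).re →
      (aeval y q).im = 0 := by
    intro q y hq hq2 hre
    rcases lt_trichotomy (aeval y q).im 0 with h1 | h1 | h1
    · exfalso
      apply k1 q (starRingEnd ℂ y) hq.conj
      · rw [aeval_conj, Complex.norm_conj]; exact hq2
      · rw [aeval_conj, Complex.conj_re]; exact hre
      · rw [aeval_conj, Complex.conj_im]; linarith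
    · exact h1
    · exact absurd h1 (k1 q y hq hq2 hre)
  rcases le_or_gt 0 (aeval z p).re with h1 | h1
  · exact k2 p z h hV h1
  · have h2 := k2 (-(p.comp (-X))) (-z) h.refl (by rw [refl_aeval, neg_neg, norm_neg]; exact hV)
      (by rw [refl_aeval, neg_neg, Complex.neg_re]; linarith)
    rw [refl_aeval, neg_neg, Complex.neg_im] at h2
    linarith

/-- the covering theorem, in the form of the library -/
theorem VN_le_norm {N : ℕ} (hN : 1 ≤ N) {p : ℝ[X]} (hp : InClass N p) {z : ℂ} (hz : ‖z‖ = 1) :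
    VN N ≤ ‖aeval z p‖ := by
  have h := (Pool.Agent.Results.MP_6cc408_an.KoebeRadiusExact.result N hN).2.2 p hp
  by_contra hcon
  push Not at hcon
  apply circle_not_mem hp hz
  apply h
  rw [mem_ball_zero_iff]
  exact hcon

/-- on the axis -/
theorem axis_case {N : ℕ} (hN : 1 ≤ N) {p : ℝ[X]} (hp : InClass N p) {z : ℂ} (hz : ‖z‖ = 1)
    (hV : ‖aeval z p‖ = VN N) (him : (aeval z p).im = 0) :
    p.eval (-1) = -VN N ∨ p.eval 1 = VN N := by
  have hVp := VN_pos hN
  obtain ⟨h1, h2⟩ := Pool.Agent.Helper809.Koe.vn_axis hN hp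
  have hnot := circle_not_mem hp hz
  have hre : aeval z p = (((aeval z p).re : ℝ) : ℂ) := by
    apply Complex.ext <;> simp [him]
  have habs : |(aeval z p).re| = VN N := by
    rw [← hV]
    conv_rhs => rw [hre]
    rw [Complex.norm_real, Real.norm_eq_abs]
  by_contra hcon
  push Not at hcon
  have h3 : VN N < -(p.eval (-1)) := lt_of_le_of_ne h1 (by
    intro h; apply hcon.1; linarith)
  have h4 : VN N < p.eval 1 := lt_of_le_of_ne h2 (Ne.symm hcon.2)
  have hcont : ContinuousOn (fun x : ℝ => p.eval x) (Set.Icc (-1) 1) := p.continuous.continuousOn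
  have hivt := intermediate_value_Ioo (by norm_num : (-1 : ℝ) ≤ 1) hcont
  obtain ⟨y, hy, hyx⟩ := hivt (show (aeval z p).re ∈ Set.Ioo (p.eval (-1)) (p.eval 1) from by
    obtain ⟨h5, h6⟩ := abs_le.mp habs.le
    exact ⟨by linarith, by linarith⟩)
  apply hnot
  refine ⟨(y : ℂ), ?_, ?_⟩
  · rw [mem_ball_zero_iff, Complex.norm_real, Real.norm_eq_abs, abs_lt]; exact hy
  · simp only
    rw [aeval_ofReal', hre]
    simp only at hyx
    rw [hyx]

/-- an extremal polynomial is extremal on the real axis -/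
theorem ext_axis {N : ℕ} (hN : 2 ≤ N) {p : ℝ[X]} (hp : InClass N p) {z : ℂ} (hz : ‖z‖ = 1)
    (hV : ‖aeval z p‖ = VN N) : p.eval (-1) = -VN N ∨ p.eval 1 = VN N := by
  obtain ⟨y, hy⟩ := exists_lim hp
  have h1 : ‖aeval y p‖ = VN N :=
    le_antisymm ((hy.min z hz).trans hV.le) (VN_le_norm (by omega) hp hy.nz)
  exact axis_case (by omega) hp hy.nz h1 (lim_real hN hy h1)

end Pool.Agent.KS6_16.KU
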