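import Mathlib
import Pool.Agent.KS6_16.KU.FStrict
import Pool.Agent.KS6_16.KU.NoExt
import Pool.Agent.KS6_16.KU.Eq

set_option autoImplicit false

open Polynomial Finset

namespace Pool.Agent.KS6_16.KU

open Pool.Agent.Helper766 Pool.Agent.Helper766.G Pool.Agent.Results.MP_6cc408_an.RealAxisSharp

lemma VN_lt_half {N : ℕ} (hN : 3 ≤ N) : VN N < 1 / 2 := by
  have hN3 : (3 : ℝ) ≤ N := by exact_mod_cast hN
  have hcos := Pool.Agent.Helper766.cos_ge (M := (N : ℝ) + 2) (by linarith)
  unfold VN
  rw [div_lt_div_iff₀ (by positivity) (by norm_num)]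
  nlinarith

/-- strict inequality on the circle away from `-1`, degree `≥ 3` -/
lemma norm_circle_gt_three {N : ℕ} (hN : 3 ≤ N) {z : ℂ} (hz : ‖z‖ = 1) (hne : z ≠ -1) :
    VN N < ‖aeval z (FN N)‖ := by
  have hN3 : (3 : ℝ) ≤ N := by exact_mod_cast hN
  have hpi := Real.pi_pos
  set θ : ℝ := Real.pi / ((N : ℝ) + 2) with hθ
  have hθ0 : 0 < θ := by positivity
  have hθ5 : θ ≤ Real.pi / 5 := by
    apply div_le_div_of_nonneg_left hpi.le (by norm_num) (by linarith)
  set g : ℝ → ℝ := fun t => ‖aeval (Complex.exp (t * Complex.I)) (FN N)‖ with hg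
  have hgc : Continuous g := by
    have h1 : Continuous (fun t : ℝ => Complex.exp (t * Complex.I)) := by fun_prop
    exact ((FN N).continuous_aeval.comp h1).norm
  have e2 : 2 * Real.pi / ((N : ℝ) + 2) = 2 * θ := by rw [hθ]; ring
  have small : ∀ t : ℝ, 0 < t → t ≤ 3 * θ → t ≠ 2 * θ → 1 / 2 ≤ g t := by
    intro t h0 h1 h2
    apply norm_circle_half hN h0 h1
    intro hcos
    apply h2
    rw [e2] at hcos
    exact Real.injOn_cos ⟨h0.le, by linarith⟩ ⟨by positivity, by linarith⟩ hcos
  have lim : ∀ t0 : ℝ, (∀ᶠ t in nhdsWithin t0 (Set.Ioi t0), 1 / 2 ≤ g t) → 1 / 2 ≤ g t0 := by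
    intro t0 hev
    exact ge_of_tendsto ((hgc.tendsto t0).mono_left nhdsWithin_le_nhds) hev
  have small' : ∀ t : ℝ, 0 ≤ t → t ≤ 3 * θ → 1 / 2 ≤ g t := by
    intro t h0 h1
    rcases h0.eq_or_lt with h2 | h2
    · rw [← h2]
      apply lim
      have : Set.Ioo (0 : ℝ) θ ∈ nhdsWithin (0 : ℝ) (Set.Ioi 0) := Ioo_mem_nhdsGT hθ0
      filter_upwards [this] with s hs
      exact small s hs.1 (by linarith [hs.2]) (by linarith [hs.2])
    · by_cases h3 : t = 2 * θ
      · apply lim
        have : Set.Ioo t (3 * θ) ∈ nhdsWithin t (Set.Ioi t) := Ioo_mem_nhdsGT (by linarith)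
        filter_upwards [this] with s hs
        exact small s (by linarith [hs.1]) hs.2.le (by rw [← h3]; exact hs.1.ne')
      · exact small t h2 h1 h3
  have upper : ∀ t : ℝ, 0 ≤ t → t < Real.pi → VN N < g t := by
    intro t h0 h1
    rcases le_or_gt t (3 * θ) with h | h
    · exact (VN_lt_half hN).trans_le (small' t h0 h)
    · apply norm_circle_large_lt hN
      · rw [xk2_eq]
        push_cast
        have e : ((N : ℝ) + 1 + 1) = (N : ℝ) + 2 := by ring
        rw [e]
        exact Real.cos_le_cos_of_nonneg_of_le_pi (by positivity) h1.le h.le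
      · have := Real.cos_lt_cos_of_nonneg_of_le_pi h0 le_rfl h1
        rwa [Real.cos_pi] at this
  have harg : z = Complex.exp (z.arg * Complex.I) := (exp_arg_of_norm hz).symm
  have hargpi : z.arg ≠ Real.pi := by
    intro h
    apply hne
    rw [harg, h, Complex.exp_pi_mul_I]
  rcases le_or_gt 0 z.arg with h5 | h5
  · rw [harg]
    exact upper _ h5 (lt_of_le_of_ne (Complex.arg_le_pi z) hargpi)
  · have h6 := upper (-z.arg) (by linarith) (by linarith [Complex.neg_pi_lt_arg z])
    simp only [hg] at h6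
    have h7 : Complex.exp (((-z.arg : ℝ) : ℂ) * Complex.I) = starRingEnd ℂ z := by
      conv_rhs => rw [harg]
      rw [← Complex.exp_conj]
      congr 1
      simp
    rw [h7, aeval_conj, Complex.norm_conj] at h6
    exact h6

/-- **`-1` is the only nearest boundary point of the extremal polynomial.** -/
theorem norm_circle_gt {N : ℕ} (hN : 2 ≤ N) {z : ℂ} (hz : ‖z‖ = 1) (hne : z ≠ -1) :
    VN N < ‖aeval z (FN N)‖ := by
  rcases hN.eq_or_lt with h | h
  · subst h
    rw [VN_two, aeval_FN]
    have e : Icc 1 2 = {1, 2} := by decide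
    rw [e]
    simp only [mem_singleton, OfNat.one_ne_ofNat, not_false_eq_true, sum_insert, sum_singleton,
      coef_one (le_refl 1 |>.trans one_le_two), coef_two_two, pow_one, Complex.ofReal_one, one_mul]
    have h2 : z + ((1 / 2 : ℝ) : ℂ) * z ^ 2 = z * (1 + z / 2) := by push_cast; ring
    rw [h2, norm_mul, hz, one_mul]
    have hz2 : z.re * z.re + z.im * z.im = 1 := by
      have := Complex.normSq_eq_norm_sq z
      rw [hz, Complex.normSq_apply] at this
      linarith
    have hre : -1 < z.re := by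
      refine lt_of_le_of_ne ?_ ?_
      · nlinarith [mul_self_nonneg z.im]
      · intro h
        apply hne
        have him : z.im = 0 := by
          rw [← h] at hz2
          have : z.im * z.im = 0 := by linarith
          exact mul_self_eq_zero.mp this
        apply Complex.ext
        · simp [← h]
        · simp [him]
    have h3 : (1 / 2 : ℝ) ^ 2 < ‖1 + z / 2‖ ^ 2 := by
      rw [← Complex.normSq_eq_norm_sq, Complex.normSq_apply]
      have e1 : (1 + z / 2).re = 1 + z.re / 2 := by simp
      have e2 : (1 + z / 2).im = z.im / 2 := by simp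
      rw [e1, e2]
      nlinarith
    exact lt_of_pow_lt_pow_left₀ 2 (norm_nonneg _) h3
  · exact norm_circle_gt_three h hz hne

lemma FN_neg_one {N : ℕ} (hN : 1 ≤ N) : (FN N).eval (-1) = -VN N := FN_eval_neg_one hN

lemma aeval_one' (p : ℝ[X]) : aeval (1 : ℂ) p = ((p.eval 1 : ℝ) : ℂ) := by
  have := aeval_ofReal' p 1
  rwa [Complex.ofReal_one] at this

lemma aeval_neg_one' (p : ℝ[X]) : aeval (-1 : ℂ) p = ((p.eval (-1) : ℝ) : ℂ) := by
  have := aeval_ofReal' p (-1)
  rwa [Complex.ofReal_neg, Complex.ofReal_one] at this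

/-- degree one -/
lemma VN_one : VN 1 = 1 := by
  have h := Pool.Agent.Helper809.Koe.VN_eq (N := 1) (by norm_num)
  have e : 2 * Real.pi / (((1 : ℕ) : ℝ) + 2) = Real.pi - Real.pi / 3 := by push_cast; ring
  rw [e, Real.cos_pi_sub, Real.cos_pi_div_three] at h
  linarith

/-- a polynomial of the class with a boundary value of minimal modulus is extremal on the axis -/
theorem extremal_axis {N : ℕ} (hN : 1 ≤ N) {p : ℝ[X]} (hp : InClass N p) {z : ℂ} (hz : ‖z‖ = 1)
    (hV : ‖aeval z p‖ = VN N) : p.eval (-1) = -VN N ∨ p.eval 1 = VN N := by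
  rcases hN.eq_or_lt with h | h
  · subst h
    left
    have hpX : p = X := by
      have h1 := hp.1
      rw [eq_X_add_C_of_natDegree_le_one h1.le, hp.2.1, hp.2.2.1]
      simp
    rw [hpX, eval_X, VN_one]
  · exact ext_axis h hp hz hV

theorem extremal_cases {N : ℕ} (hN : 1 ≤ N) {p : ℝ[X]} (hp : InClass N p) {z : ℂ} (hz : ‖z‖ = 1)
    (hV : ‖aeval z p‖ = VN N) : p = FN N ∨ p = -((FN N).comp (-X)) := by
  rcases extremal_axis hN hp hz hV with h | h
  · left; exact eq_FN hN hp h
  · right; exact eq_FN_refl hN hp h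

/-- boundary points come from the circle -/
lemma closure_image (p : ℝ[X]) : closure (image p) =
    (fun z : ℂ => aeval z p) '' Metric.closedBall (0 : ℂ) 1 := by
  apply Set.Subset.antisymm
  · apply closure_minimal (Set.image_mono Metric.ball_subset_closedBall)
    exact ((isCompact_closedBall 0 1).image p.continuous_aeval).isClosed
  · rw [← closure_ball (0 : ℂ) one_ne_zero]
    exact image_closure_subset_closure_image p.continuous_aeval

lemma mem_frontier_iff {N : ℕ} {p : ℝ[X]} (hp : InClass N p) (w : ℂ) :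
    w ∈ frontier (image p) ↔ ∃ z : ℂ, ‖z‖ = 1 ∧ aeval z p = w := by
  rw [(Pool.Agent.Helper809.Koe.isOpen_image hp).frontier_eq, closure_image]
  constructor
  · rintro ⟨⟨z, hz, hzw⟩, hnot⟩
    rw [mem_closedBall_zero_iff] at hz
    refine ⟨z, ?_, hzw⟩
    rcases hz.eq_or_lt with h | h
    · exact h
    · exfalso
      apply hnot
      exact ⟨z, by rw [mem_ball_zero_iff]; exact h, hzw⟩
  · rintro ⟨z, hz, hzw⟩
    refine ⟨⟨z, by rw [mem_closedBall_zero_iff]; exact hz.le, hzw⟩, ?_⟩
    rw [← hzw]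
    exact circle_not_mem hp hz

lemma infDist_le {N : ℕ} {p : ℝ[X]} (hp : InClass N p) {z : ℂ} (hz : ‖z‖ = 1) :
    Metric.infDist (0 : ℂ) (frontier (image p)) ≤ ‖aeval z p‖ := by
  have := Metric.infDist_le_dist_of_mem (x := (0 : ℂ)) ((mem_frontier_iff hp _).mpr ⟨z, hz, rfl⟩)
  rwa [dist_zero_left] at this

lemma exists_infDist {N : ℕ} {p : ℝ[X]} (hp : InClass N p) :
    ∃ z : ℂ, ‖z‖ = 1 ∧ Metric.infDist (0 : ℂ) (frontier (image p)) = ‖aeval z p‖ := by
  have hne := Pool.Agent.Helper809.Koe.frontier_nonempty' p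
  have hc : IsClosed (frontier (image p)) := isClosed_frontier
  obtain ⟨w, hw, hd⟩ := hc.exists_infDist_eq_dist hne (0 : ℂ)
  obtain ⟨z, hz, hzw⟩ := (mem_frontier_iff hp w).mp hw
  refine ⟨z, hz, ?_⟩
  rw [hd, dist_zero_left, hzw]

theorem VN_le_infDist {N : ℕ} (hN : 1 ≤ N) {p : ℝ[X]} (hp : InClass N p) :
    VN N ≤ Metric.infDist (0 : ℂ) (frontier (image p)) := by
  obtain ⟨z, hz, h⟩ := exists_infDist hp
  rw [h]
  exact VN_le_norm hN hp hz

lemma refl_eval_one (N : ℕ) : (-((FN N).comp (-X))).eval 1 = -((FN N).eval (-1)) := by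
  simp

theorem infDist_eq_iff {N : ℕ} (hN : 1 ≤ N) {p : ℝ[X]} (hp : InClass N p) :
    Metric.infDist (0 : ℂ) (frontier (image p)) = VN N ↔ p = FN N ∨ p = -((FN N).comp (-X)) := by
  constructor
  · intro h
    obtain ⟨z, hz, h2⟩ := exists_infDist hp
    exact extremal_cases hN hp hz (by rw [← h2]; exact h)
  · intro h
    apply le_antisymm _ (VN_le_infDist hN hp)
    have hV := VN_pos hN
    rcases h with h | h
    · have := infDist_le hp (z := -1) (by simp)
      rwa [aeval_neg_one', h, FN_neg_one hN, Complex.norm_real, Real.norm_eq_abs, abs_neg,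
        abs_of_pos hV, ← h] at this
    · have := infDist_le hp (z := 1) (by simp)
      rwa [aeval_one', h, refl_eval_one, FN_neg_one hN, neg_neg, Complex.norm_real,
        Real.norm_eq_abs, abs_of_pos hV, ← h] at this

theorem neg_one_iff {N : ℕ} (hN : 1 ≤ N) {p : ℝ[X]} (hp : InClass N p) :
    p.eval (-1) = -VN N ↔ p = FN N := by
  constructor
  · exact eq_FN hN hp
  · intro h
    rw [h]
    exact FN_neg_one hN

theorem one_iff {N : ℕ} (hN : 1 ≤ N) {p : ℝ[X]} (hp : InClass N p) :
    p.eval 1 = VN N ↔ p = -((FN N).comp (-X)) := by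
  constructor
  · exact eq_FN_refl hN hp
  · intro h
    rw [h, refl_eval_one, FN_neg_one hN, neg_neg]

theorem FN_ne_refl {N : ℕ} (hN : 2 ≤ N) : FN N ≠ -((FN N).comp (-X)) := by
  intro h
  have h1 : (FN N).eval 1 = VN N := by
    have h2 := refl_eval_one N
    rw [← h, FN_neg_one (by omega), neg_neg] at h2
    exact h2
  have h3 := norm_circle_gt hN (z := 1) (by simp) (by norm_num)
  rw [aeval_one', h1, Complex.norm_real, Real.norm_eq_abs, abs_of_pos (VN_pos (by omega))] at h3
  exact lt_irrefl _ h3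

/-- **the closed disc** -/
theorem not_mem_image_iff {N : ℕ} (hN : 2 ≤ N) {p : ℝ[X]} (hp : InClass N p) {w : ℂ}
    (hw : ‖w‖ ≤ VN N) : w ∉ image p ↔
      (p = FN N ∧ w = -((VN N : ℝ) : ℂ)) ∨ (p = -((FN N).comp (-X)) ∧ w = ((VN N : ℝ) : ℂ)) := by
  have hN1 : 1 ≤ N := by omega
  have hV := VN_pos hN1
  constructor
  · intro hnot
    have hball := (Pool.Agent.Results.MP_6cc408_an.KoebeRadiusExact.result N hN1).2.2 p hp
    have hcl : Metric.closedBall (0 : ℂ) (VN N) ⊆ closure (image p) := by
      rw [← closure_ball (0 : ℂ) hV.ne']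
      exact closure_mono hball
    have h1 := hcl (show w ∈ Metric.closedBall (0 : ℂ) (VN N) by
      rw [mem_closedBall_zero_iff]; exact hw)
    have h2 : w ∈ frontier (image p) := by
      rw [(Pool.Agent.Helper809.Koe.isOpen_image hp).frontier_eq]
      exact ⟨h1, hnot⟩
    obtain ⟨z, hz, hzw⟩ := (mem_frontier_iff hp w).mp h2
    have h3 : ‖aeval z p‖ = VN N := le_antisymm (by rw [hzw]; exact hw) (VN_le_norm hN1 hp hz)
    rcases extremal_cases hN1 hp hz h3 with h | h
    · left
      refine ⟨h, ?_⟩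
      have hz1 : z = -1 := by
        by_contra hne
        have := norm_circle_gt hN hz hne
        rw [← h, h3] at this
        exact lt_irrefl _ this
      rw [← hzw, hz1, aeval_neg_one', h, FN_neg_one hN1, Complex.ofReal_neg]
    · right
      refine ⟨h, ?_⟩
      have hz1 : -z = -1 := by
        by_contra hne
        have := norm_circle_gt hN (z := -z) (by simpa using hz) hne
        rw [h, refl_aeval, norm_neg] at h3
        rw [h3] at this
        exact lt_irrefl _ this
      have hz2 : z = 1 := neg_injective hz1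
      rw [← hzw, hz2, aeval_one', h, refl_eval_one, FN_neg_one hN1, neg_neg]
  · rintro (⟨h, h2⟩ | ⟨h, h2⟩)
    · have := circle_not_mem hp (z := -1) (by simp)
      rw [aeval_neg_one', h, FN_neg_one hN1, Complex.ofReal_neg, ← h, ← h2] at this
      exact this
    · have := circle_not_mem hp (z := 1) (by simp)
      rw [aeval_one', h, refl_eval_one, FN_neg_one hN1, neg_neg, ← h, ← h2] at this
      exact this

end Pool.Agent.KS6_16.KU
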